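import Pool.Agent.V7H56.LD.Tail
import Pool.Agent.Y959.Rs.RealB

set_option autoImplicit false

/-!
# Large deviations at separated real points
-/

namespace Pool.Agent.V7H56.LD

open Finset Pool.Agent.TH705.DL Pool.Agent.Y959.Her Pool.Agent.Y959.Rs

/-- the vector of the polynomial (conjugated) -/
noncomputable def cv (a : ℕ → ℂ) (t : ℝ) (n : ℕ) : ℂ := (starRingEnd ℂ) (a n) * ph t n

theorem cpow_ph (t : ℝ) (n : ℕ) (hn : 1 ≤ n) : (n : ℂ) ^ (-((t : ℂ) * Complex.I)) = ph (-t) n := by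
  have hn0 : (n : ℂ) ≠ 0 := by exact_mod_cast (by omega : n ≠ 0)
  rw [Complex.cpow_def_of_ne_zero hn0, ← Complex.natCast_log]
  unfold ph
  congr 1
  push_cast
  ring

theorem norm_ssum_cv (N : ℕ) (a : ℕ → ℂ) (P : Finset ℕ) (t : ℝ) :
    ‖ssum (Icc 1 N) (cv a t) P‖ =
      ‖∑ n ∈ Icc 1 N, (if n ∈ P then (1 : ℂ) else -1) * a n * (n : ℂ) ^ (-((t : ℂ) * Complex.I))‖ := by
  rw [← Complex.norm_conj (ssum (Icc 1 N) (cv a t) P)]
  congr 1
  unfold ssum cv
  rw [map_sum]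
  apply sum_congr rfl
  intro n hn
  rw [map_mul, map_mul, Complex.conj_conj, Complex.conj_ofReal, ph_conj,
    cpow_ph t n (mem_Icc.1 hn).1]
  unfold sg
  split_ifs
  · push_cast
    ring
  · push_cast
    ring

theorem cv_sum_le (N : ℕ) (a : ℕ → ℂ) (ha : ∀ n, ‖a n‖ ≤ 1) (W : Finset ℝ) (b : ℝ → Fin 4) :
    ∑ n ∈ Icc 1 N, ‖∑ t ∈ W, phs (b t) * cv a t n‖ ^ 2 ≤
      ∑ n ∈ Icc 1 N, ‖∑ t ∈ W, phs (b t) * ph t n‖ ^ 2 := by
  apply sum_le_sum
  intro n _
  have h1 : ∑ t ∈ W, phs (b t) * cv a t n = (starRingEnd ℂ) (a n) * ∑ t ∈ W, phs (b t) * ph t n := by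
    rw [mul_sum]
    apply sum_congr rfl
    intro t _
    unfold cv
    ring
  rw [h1, norm_mul, mul_pow, Complex.norm_conj]
  have h2 : ‖a n‖ ^ 2 ≤ 1 := pow_le_one₀ (norm_nonneg _) (ha n)
  have h3 := sq_nonneg ‖∑ t ∈ W, phs (b t) * ph t n‖
  nlinarith

theorem ssum_lip (N : ℕ) (hN : 1 ≤ N) (a : ℕ → ℂ) (ha : ∀ n, ‖a n‖ ≤ 1) (P : Finset ℕ) (t u : ℝ)
    (h : |t - u| ≤ 1 / (N : ℝ) ^ 2) :
    ‖ssum (Icc 1 N) (cv a t) P‖ ≤ ‖ssum (Icc 1 N) (cv a u) P‖ + 1 := by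
  have hN1 : (1 : ℝ) ≤ N := by exact_mod_cast hN
  have hN0 : (0 : ℝ) < N := by linarith
  have h1 : ssum (Icc 1 N) (cv a t) P = ssum (Icc 1 N) (cv a u) P +
      ∑ n ∈ Icc 1 N, ((sg P n : ℝ) : ℂ) * ((starRingEnd ℂ) (a n) * (ph t n - ph u n)) := by
    unfold ssum cv
    rw [← sum_add_distrib]
    apply sum_congr rfl
    intro n _
    ring
  rw [h1]
  refine (norm_add_le _ _).trans ?_
  have h2 : ‖∑ n ∈ Icc 1 N, ((sg P n : ℝ) : ℂ) * ((starRingEnd ℂ) (a n) * (ph t n - ph u n))‖ ≤ 1 := by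
    refine (norm_sum_le _ _).trans ?_
    calc ∑ n ∈ Icc 1 N, ‖((sg P n : ℝ) : ℂ) * ((starRingEnd ℂ) (a n) * (ph t n - ph u n))‖
        ≤ ∑ _n ∈ Icc 1 N, 1 / (N : ℝ) ^ 2 * Real.log N := by
          apply sum_le_sum
          intro n hn
          rw [mem_Icc] at hn
          rw [norm_mul, norm_mul, Complex.norm_real, Real.norm_eq_abs, sg_abs, one_mul, Complex.norm_conj]
          have h3 := ph_lip t u n hn.1
          have h4 : Real.log n ≤ Real.log N := by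
            apply Real.log_le_log
            · exact_mod_cast (by omega : 0 < n)
            · exact_mod_cast hn.2
          have h5 : 0 ≤ Real.log (n : ℝ) := Real.log_nonneg (by exact_mod_cast hn.1)
          calc ‖a n‖ * ‖ph t n - ph u n‖ ≤ 1 * (|t - u| * Real.log n) :=
                mul_le_mul (ha n) h3 (norm_nonneg _) zero_le_one
            _ ≤ 1 / (N : ℝ) ^ 2 * Real.log N := by
                rw [one_mul]
                exact mul_le_mul h h4 h5 (by positivity)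
      _ = Real.log N / N := by
          rw [sum_const, Nat.card_Icc, Nat.add_sub_cancel, nsmul_eq_mul]
          field_simp
      _ ≤ 1 := by
          rw [div_le_one hN0]
          have := Real.log_le_sub_one_of_pos hN0
          linarith
  linarith

/-- the rounding of the points -/
noncomputable def rnd (M : ℕ) (t : ℝ) : ℝ := (⌊M * t⌋₊ : ℝ) / M

theorem rnd_close (M : ℕ) (hM : 1 ≤ M) (t : ℝ) (ht : 0 ≤ t) : |t - rnd M t| ≤ 1 / M := by
  have hM0 : (0 : ℝ) < M := by exact_mod_cast hM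
  unfold rnd
  have h1 := Nat.floor_le (by positivity : 0 ≤ (M : ℝ) * t)
  have h2 := Nat.lt_floor_add_one ((M : ℝ) * t)
  have h3 : t - (⌊M * t⌋₊ : ℝ) / M = (M * t - ⌊M * t⌋₊) / M := by
    field_simp
  rw [h3, abs_div, abs_of_pos hM0]
  apply div_le_div_of_nonneg_right _ hM0.le
  rw [abs_of_nonneg (by linarith)]
  linarith

theorem rnd_sep' (M : ℕ) (hM : 1 ≤ M) (t u : ℝ) (ht : 0 ≤ t) (h : t + 1 ≤ u) : rnd M t + 1 ≤ rnd M u := by
  have hM0 : (0 : ℝ) < M := by exact_mod_cast hM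
  unfold rnd
  have h1 : ⌊M * t⌋₊ + M ≤ ⌊M * u⌋₊ := by
    rw [← Nat.floor_add_natCast (by positivity : 0 ≤ (M : ℝ) * t)]
    apply Nat.floor_le_floor
    nlinarith
  have h2 : ((⌊M * t⌋₊ : ℕ) : ℝ) + M ≤ ((⌊M * u⌋₊ : ℕ) : ℝ) := by exact_mod_cast h1
  rw [div_add_one hM0.ne']
  exact div_le_div_of_nonneg_right h2 hM0.le

theorem rnd_sep (M : ℕ) (hM : 1 ≤ M) (t u : ℝ) (ht : 0 ≤ t) (hu : 0 ≤ u) (h : 1 ≤ |t - u|) :
    1 ≤ |rnd M t - rnd M u| := by
  rcases le_total t u with h1 | h1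
  · rw [abs_sub_comm, abs_of_nonneg (by linarith)] at h
    have h2 := rnd_sep' M hM t u ht (by linarith)
    rw [abs_sub_comm, abs_of_nonneg (by linarith)]
    linarith
  · rw [abs_of_nonneg (by linarith)] at h
    have h2 := rnd_sep' M hM u t hu (by linarith)
    rw [abs_of_nonneg (by linarith)]
    linarith

/-- the logarithm -/
noncomputable def ell (N : ℕ) (T : ℝ) : ℝ := 1 + Real.log N + Real.log T

theorem gam_le (N R : ℕ) (hN : 1 ≤ N) (T : ℝ) (hT : 1 ≤ T) :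
    (N : ℝ) + ((Nat.log 2 N : ℝ) + 1) * (84 * N * (1 + Real.log (T + 1)) +
        R * (14 * Real.sqrt (T * (1 + Real.log N)))) ≤ 337 * ((N + R * Real.sqrt T) * ell N T ^ 2) := by
  have hN1 : (1 : ℝ) ≤ N := by exact_mod_cast hN
  have hN0 : (0 : ℝ) < N := by linarith
  have hlN : 0 ≤ Real.log N := Real.log_nonneg hN1
  have hlT : 0 ≤ Real.log T := Real.log_nonneg hT
  obtain ⟨l, hl⟩ : ∃ l : ℝ, l = ell N T := ⟨_, rfl⟩
  have hl1 : 1 ≤ l := by rw [hl]; unfold ell; linarith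
  rw [← hl]
  have h1 : (Nat.log 2 N : ℝ) ≤ 2 * Real.log N := by
    have h2 : (2 : ℝ) ^ Nat.log 2 N ≤ N := by exact_mod_cast Nat.pow_log_le_self 2 (by omega)
    have h3 := Real.log_le_log (by positivity) h2
    rw [Real.log_pow] at h3
    have h4 := Real.log_two_gt_d9
    have h5 : (0 : ℝ) ≤ Nat.log 2 N := Nat.cast_nonneg _
    nlinarith
  have h2 : (Nat.log 2 N : ℝ) + 1 ≤ 2 * l := by
    rw [hl]
    unfold ell
    linarith
  have h3 : 1 + Real.log (T + 1) ≤ 2 * l := by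
    have h4 : Real.log (T + 1) ≤ Real.log (2 * T) := Real.log_le_log (by linarith) (by linarith)
    rw [Real.log_mul (by norm_num) (by linarith)] at h4
    have h5 := Real.log_two_lt_d9
    rw [hl]
    unfold ell
    linarith
  have h4 : Real.sqrt (T * (1 + Real.log N)) ≤ Real.sqrt T * l := by
    rw [Real.sqrt_mul (by linarith)]
    apply mul_le_mul_of_nonneg_left _ (Real.sqrt_nonneg _)
    rw [Real.sqrt_le_left (by linarith)]
    have : 1 + Real.log N ≤ l := by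
      rw [hl]
      unfold ell
      linarith
    nlinarith
  have hR : (0 : ℝ) ≤ R := Nat.cast_nonneg _
  have hsT := Real.sqrt_nonneg T
  have h5 : 84 * N * (1 + Real.log (T + 1)) + R * (14 * Real.sqrt (T * (1 + Real.log N))) ≤
      168 * (N * l) + 14 * (R * Real.sqrt T * l) := by
    have h6 := mul_le_mul_of_nonneg_left h3 (by positivity : (0 : ℝ) ≤ 84 * N)
    have h7 := mul_le_mul_of_nonneg_left h4 (by positivity : (0 : ℝ) ≤ R * 14)
    nlinarith
  have h6 : 0 ≤ 84 * N * (1 + Real.log (T + 1)) + R * (14 * Real.sqrt (T * (1 + Real.log N))) := by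
    have : 0 ≤ Real.log (T + 1) := Real.log_nonneg (by linarith)
    positivity
  have h7 := mul_le_mul h2 h5 h6 (by linarith)
  have h8 : (N : ℝ) ≤ N * l ^ 2 := by nlinarith [mul_nonneg hN0.le (by nlinarith : 0 ≤ l ^ 2 - 1)]
  have h9 : 0 ≤ (R : ℝ) * Real.sqrt T * l ^ 2 := by positivity
  nlinarith

open Classical in
/-- **Large deviations of the number of large values.** -/
theorem real_tail (N R D : ℕ) (hN : 1 ≤ N) (hR : 1 ≤ R) (T V : ℝ) (hT : 1 ≤ T) (hV : 0 < V)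
    (a : Fin D → ℕ → ℂ) (ha : ∀ j n, ‖a j n‖ ≤ 1)
    (hc : 27000 * ((N + R * Real.sqrt T) * ell N T ^ 3) ≤ V ^ 2) :
    (((Icc 1 N).powerset.filter (fun P => ∃ j, ∃ S : Finset ℝ, R ≤ S.card ∧ (∀ t ∈ S, 0 ≤ t ∧ t ≤ T ∧
      V ≤ ‖∑ n ∈ Icc 1 N, (if n ∈ P then (1 : ℂ) else -1) * a j n * (n : ℂ) ^ (-((t : ℂ) * Complex.I))‖) ∧
      (∀ t ∈ S, ∀ u ∈ S, t ≠ u → 1 ≤ |t - u|))).card : ℝ) ≤
      D * (2 ^ N * Real.exp (-(R * V ^ 2 / (27000 * ((N + R * Real.sqrt T) * ell N T ^ 2))))) := by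
  have hN1 : (1 : ℝ) ≤ N := by exact_mod_cast hN
  have hN0 : (0 : ℝ) < N := by linarith
  have hlN : 0 ≤ Real.log N := Real.log_nonneg hN1
  have hlT : 0 ≤ Real.log T := Real.log_nonneg hT
  have hR1 : (1 : ℝ) ≤ R := by exact_mod_cast hR
  obtain ⟨l, hl⟩ : ∃ l : ℝ, l = ell N T := ⟨_, rfl⟩
  have hl1 : 1 ≤ l := by rw [hl]; unfold ell; linarith
  obtain ⟨X, hX⟩ : ∃ X : ℝ, X = N + R * Real.sqrt T := ⟨_, rfl⟩
  have hX1 : 1 ≤ X := by
    rw [hX]
    have : 0 ≤ (R : ℝ) * Real.sqrt T := by positivity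
    linarith
  obtain ⟨M, hM⟩ : ∃ M : ℕ, M = N ^ 2 := ⟨_, rfl⟩
  have hM1 : 1 ≤ M := by rw [hM]; exact Nat.one_le_pow _ _ hN
  have hM0 : (0 : ℝ) < M := by exact_mod_cast hM1
  have hMr : (M : ℝ) = (N : ℝ) ^ 2 := by rw [hM]; push_cast; rfl
  obtain ⟨G, hG⟩ : ∃ G : Finset ℝ, G = (range (⌊M * T⌋₊ + 1)).image (fun k : ℕ => (k : ℝ) / M) := ⟨_, rfl⟩
  have hGT : ∀ t ∈ G, 0 ≤ t ∧ t ≤ T := by
    intro t ht
    rw [hG, mem_image] at ht
    obtain ⟨k, hk, rfl⟩ := ht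
    rw [mem_range] at hk
    refine ⟨by positivity, ?_⟩
    rw [div_le_iff₀ hM0]
    have h1 : (k : ℝ) ≤ (⌊M * T⌋₊ : ℝ) := by exact_mod_cast (by omega : k ≤ ⌊M * T⌋₊)
    have h2 := Nat.floor_le (by positivity : 0 ≤ (M : ℝ) * T)
    linarith
  have hGc : (4 * G.card : ℝ) ≤ 8 * ((N : ℝ) ^ 2 * T) := by
    have h1 : G.card ≤ ⌊M * T⌋₊ + 1 := by
      rw [hG]
      refine card_image_le.trans ?_
      rw [card_range]
    have h2 : (G.card : ℝ) ≤ (⌊M * T⌋₊ : ℝ) + 1 := by exact_mod_cast h1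
    have h3 := Nat.floor_le (by positivity : 0 ≤ (M : ℝ) * T)
    have h4 : 1 ≤ (N : ℝ) ^ 2 * T := by
      have : 1 ≤ (N : ℝ) ^ 2 := one_le_pow₀ hN1
      nlinarith
    rw [hMr] at h3
    rw [hMr] at h2
    linarith
  have hV2 : 2 ≤ V := by
    have h1 : 27000 ≤ V ^ 2 := by
      refine le_trans ?_ hc
      rw [← hX, ← hl]
      have : 1 ≤ X * l ^ 3 := by
        have := one_le_pow₀ hl1 (n := 3)
        nlinarith
      linarith
    nlinarith
  obtain ⟨Γ, hΓ⟩ : ∃ Γ : ℝ, Γ = 337 * (X * l ^ 2) := ⟨_, rfl⟩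
  have hΓ0 : 0 < Γ := by rw [hΓ]; positivity
  have hone : ∀ j, (((Icc 1 N).powerset.filter (fun P => ∃ S : Finset ℝ, R ≤ S.card ∧ (∀ t ∈ S, 0 ≤ t ∧ t ≤ T ∧
      V ≤ ‖∑ n ∈ Icc 1 N, (if n ∈ P then (1 : ℂ) else -1) * a j n * (n : ℂ) ^ (-((t : ℂ) * Complex.I))‖) ∧
      (∀ t ∈ S, ∀ u ∈ S, t ≠ u → 1 ≤ |t - u|))).card : ℝ) ≤
      2 ^ N * Real.exp (-(R * V ^ 2 / (27000 * (X * l ^ 2)))) := by
    intro j
    have hut := union_tail (Icc 1 N) (cv (a j)) G R hR Sep (V / 2) Γ (by positivity) hΓ0 (by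
      intro W hWG hWR hWS b
      refine (cv_sum_le N (a j) (ha j) W b).trans ?_
      refine (halaszR N hN T (by linarith) W (fun t ht => hGT t (hWG ht)) hWS b).trans ?_
      rw [hWR, mul_comm]
      apply mul_le_mul_of_nonneg_right _ (by positivity)
      rw [hΓ, hX, hl]
      exact gam_le N R hN T hT)
    rw [Nat.card_Icc, Nat.add_sub_cancel] at hut
    refine le_trans (Nat.cast_le.2 (card_le_card ?_)) (hut.trans ?_)
    · intro P hP
      rw [mem_filter] at hP ⊢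
      obtain ⟨hP1, S, hS1, hS2, hS3⟩ := hP
      refine ⟨hP1, ?_⟩
      obtain ⟨S', hS'S, hS'R⟩ := exists_subset_card_eq hS1
      have hinj : Set.InjOn (rnd M) S' := by
        intro t ht u hu htu
        by_contra hne
        have h1 := hS3 t (hS'S ht) u (hS'S hu) hne
        have h2 := rnd_sep M hM1 t u (hS2 t (hS'S ht)).1 (hS2 u (hS'S hu)).1 h1
        rw [htu, sub_self, abs_zero] at h2
        linarith
      refine ⟨S'.image (rnd M), ?_, ?_, ?_, ?_⟩
      · intro x hx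
        rw [mem_image] at hx
        obtain ⟨t, ht, rfl⟩ := hx
        rw [hG, mem_image]
        refine ⟨⌊M * t⌋₊, ?_, rfl⟩
        rw [mem_range]
        have h1 := (hS2 t (hS'S ht)).2.1
        have h2 : ⌊M * t⌋₊ ≤ ⌊M * T⌋₊ := Nat.floor_le_floor (mul_le_mul_of_nonneg_left h1 hM0.le)
        omega
      · rw [card_image_of_injOn hinj, hS'R]
      · intro x hx y hy hxy
        rw [mem_image] at hx hy
        obtain ⟨t, ht, rfl⟩ := hx
        obtain ⟨u, hu, rfl⟩ := hy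
        have hne : t ≠ u := fun h => hxy (by rw [h])
        exact rnd_sep M hM1 t u (hS2 t (hS'S ht)).1 (hS2 u (hS'S hu)).1
          (hS3 t (hS'S ht) u (hS'S hu) hne)
      · intro x hx
        rw [mem_image] at hx
        obtain ⟨t, ht, rfl⟩ := hx
        have h1 := (hS2 t (hS'S ht)).2.2
        rw [← norm_ssum_cv] at h1
        have h2 := ssum_lip N hN (a j) (ha j) P t (rnd M t) (by
          have := rnd_close M hM1 t (hS2 t (hS'S ht)).1
          rwa [hMr] at this)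
        linarith
    · have h1 : (4 * G.card : ℝ) ^ R ≤ Real.exp (3 * l * R) := by
        have h2 : (4 * G.card : ℝ) ≤ Real.exp (3 * l) := by
          refine hGc.trans ?_
          have h3 : Real.exp (3 * l) = Real.exp 3 * ((N : ℝ) ^ 3 * T ^ 3) := by
            have e1 : (N : ℝ) ^ 3 = Real.exp (3 * Real.log N) := by
              rw [mul_comm, Real.exp_mul, Real.exp_log hN0]
              norm_num
            have e2 : T ^ 3 = Real.exp (3 * Real.log T) := by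
              rw [mul_comm, Real.exp_mul, Real.exp_log (by linarith)]
              norm_num
            rw [e1, e2, ← Real.exp_add, ← Real.exp_add, hl]
            congr 1
            unfold ell
            ring
          rw [h3]
          have h4 : (8 : ℝ) ≤ Real.exp 3 := by
            have h5 := Real.exp_one_gt_d9
            have h6 : Real.exp 3 = Real.exp 1 ^ 3 := by
              rw [← Real.exp_nat_mul]
              norm_num
            rw [h6]
            calc (8 : ℝ) = 2 ^ 3 := by norm_num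
              _ ≤ Real.exp 1 ^ 3 := pow_le_pow_left₀ (by norm_num) (by linarith) 3
          have h5 : (N : ℝ) ^ 2 * T ≤ (N : ℝ) ^ 3 * T ^ 3 := by
            have h6 : (N : ℝ) ^ 2 ≤ (N : ℝ) ^ 3 := pow_le_pow_right₀ hN1 (by norm_num)
            have h7 : T ≤ T ^ 3 := by
              calc T = T ^ 1 := (pow_one T).symm
                _ ≤ T ^ 3 := pow_le_pow_right₀ hT (by norm_num)
            exact mul_le_mul h6 h7 (by linarith) (by positivity)
          exact mul_le_mul h4 h5 (by positivity) (by positivity)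
        calc (4 * G.card : ℝ) ^ R ≤ Real.exp (3 * l) ^ R := pow_le_pow_left₀ (by positivity) h2 R
          _ = Real.exp (3 * l * R) := by
              rw [← Real.exp_nat_mul]
              congr 1
              ring
      have h2 : (0 : ℝ) ≤ 2 ^ N * Real.exp (-(R * (V / 2) ^ 2 / (5 * Γ))) := by positivity
      refine (mul_le_mul_of_nonneg_right h1 h2).trans ?_
      have h3 : Real.exp (3 * l * R) * (2 ^ N * Real.exp (-(R * (V / 2) ^ 2 / (5 * Γ)))) =
          2 ^ N * Real.exp (3 * l * R - R * (V / 2) ^ 2 / (5 * Γ)) := by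
        rw [sub_eq_add_neg, Real.exp_add]
        ring
      rw [h3]
      apply mul_le_mul_of_nonneg_left _ (by positivity)
      apply Real.exp_le_exp.2
      obtain ⟨q, hq⟩ : ∃ q : ℝ, q = V ^ 2 / (X * l ^ 2) := ⟨_, rfl⟩
      have h4 : R * (V / 2) ^ 2 / (5 * Γ) = R * (q / 6740) := by
        rw [hΓ, hq]
        field_simp
        norm_num
      have h5 : R * V ^ 2 / (27000 * (X * l ^ 2)) = R * (q / 27000) := by
        rw [hq]
        field_simp
      have h6 : 27000 * l ≤ q := by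
        rw [hq, le_div_iff₀ (by positivity)]
        rw [← hX, ← hl] at hc
        refine le_trans (le_of_eq ?_) hc
        ring
      rw [h4, h5]
      have h7 : 3 * l - q / 6740 ≤ -(q / 27000) := by linarith
      have h8 := mul_le_mul_of_nonneg_left h7 (by linarith : (0 : ℝ) ≤ R)
      linarith
  rw [← hX, ← hl]
  have hsub : (Icc 1 N).powerset.filter (fun P => ∃ j, ∃ S : Finset ℝ, R ≤ S.card ∧ (∀ t ∈ S, 0 ≤ t ∧ t ≤ T ∧
      V ≤ ‖∑ n ∈ Icc 1 N, (if n ∈ P then (1 : ℂ) else -1) * a j n * (n : ℂ) ^ (-((t : ℂ) * Complex.I))‖) ∧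
      (∀ t ∈ S, ∀ u ∈ S, t ≠ u → 1 ≤ |t - u|)) ⊆ (univ : Finset (Fin D)).biUnion (fun j =>
      (Icc 1 N).powerset.filter (fun P => ∃ S : Finset ℝ, R ≤ S.card ∧ (∀ t ∈ S, 0 ≤ t ∧ t ≤ T ∧
      V ≤ ‖∑ n ∈ Icc 1 N, (if n ∈ P then (1 : ℂ) else -1) * a j n * (n : ℂ) ^ (-((t : ℂ) * Complex.I))‖) ∧
      (∀ t ∈ S, ∀ u ∈ S, t ≠ u → 1 ≤ |t - u|))) := by
    intro P hP
    rw [mem_filter] at hP
    obtain ⟨hP1, j, hj⟩ := hP
    rw [mem_biUnion]
    exact ⟨j, mem_univ _, mem_filter.2 ⟨hP1, hj⟩⟩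
  have h1 := (card_le_card hsub).trans card_biUnion_le
  calc _ ≤ ∑ j : Fin D, (((Icc 1 N).powerset.filter (fun P => ∃ S : Finset ℝ, R ≤ S.card ∧
      (∀ t ∈ S, 0 ≤ t ∧ t ≤ T ∧
      V ≤ ‖∑ n ∈ Icc 1 N, (if n ∈ P then (1 : ℂ) else -1) * a j n * (n : ℂ) ^ (-((t : ℂ) * Complex.I))‖) ∧
      (∀ t ∈ S, ∀ u ∈ S, t ≠ u → 1 ≤ |t - u|))).card : ℝ) := by exact_mod_cast h1
    _ ≤ ∑ _j : Fin D, 2 ^ N * Real.exp (-(R * V ^ 2 / (27000 * (X * l ^ 2)))) := sum_le_sum fun j _ => hone j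
    _ = _ := by rw [sum_const, card_univ, Fintype.card_fin, nsmul_eq_mul]

end Pool.Agent.V7H56.LD
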