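import Pool.Agent.V7H56.LD.Equ
import Pool.Agent.V7H56.LD.Real
import Pool.Agent.Y959.Rs.Hal

set_option autoImplicit false

/-!
# Large deviations at the integers up to any power of `N`
-/

namespace Pool.Agent.V7H56.LD

open Finset Pool.Agent.TH705.DL Pool.Agent.Y959.Her Pool.Agent.Y959.Rs

/-- one dyadic block -/
theorem block (K : ℕ) (hK : 1 ≤ K) : ∃ C : ℝ, 2 ≤ C ∧ ∀ (N M : ℕ), 1 ≤ M → M ≤ N →
    ∀ (W : Finset (Fin (N ^ K + 1))) (b : Fin (N ^ K + 1) → Fin 4),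
    (W.card : ℝ) ≤ (N : ℝ) ^ (1 / (8 * K * 4 ^ K) : ℝ) →
    ∑ n ∈ Icc M (2 * M), ‖∑ i ∈ W, phs (b i) * ph (((i : ℕ) : ℝ)) n‖ ^ 2 ≤
      W.card * (N * (C + 84 * (1 + Real.log ((N : ℝ) ^ K + 1)))) := by
  obtain ⟨C0, hC0, hker⟩ := ker_Q (2 * K) (by omega)
  refine ⟨2 + C0, by linarith, ?_⟩
  intro N M hM hMN W b hW
  have hM1 : (1 : ℝ) ≤ M := by exact_mod_cast hM
  have hM0 : (0 : ℝ) < M := by linarith
  have hMN' : (M : ℝ) ≤ N := by exact_mod_cast hMN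
  have hN1 : (1 : ℝ) ≤ N := by linarith
  have hN0 : (0 : ℝ) < N := by linarith
  have hK1 : (1 : ℝ) ≤ K := by exact_mod_cast hK
  have h4K : (4 : ℝ) ≤ 4 ^ K := by
    calc (4 : ℝ) = 4 ^ 1 := (pow_one _).symm
      _ ≤ 4 ^ K := pow_le_pow_right₀ (by norm_num) hK
  have hWc : (0 : ℝ) ≤ W.card := Nat.cast_nonneg _
  have hlog : 0 ≤ Real.log ((N : ℝ) ^ K + 1) := by
    apply Real.log_nonneg
    have : 0 ≤ (N : ℝ) ^ K := by positivity
    linarith
  rcases lt_or_ge ((M : ℝ) ^ 2) N with h | h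
  · -- the trivial bound
    have h1 : ∑ n ∈ Icc M (2 * M), ‖∑ i ∈ W, phs (b i) * ph (((i : ℕ) : ℝ)) n‖ ^ 2 ≤
        ∑ _n ∈ Icc M (2 * M), (W.card : ℝ) ^ 2 := by
      apply sum_le_sum
      intro n _
      apply pow_le_pow_left₀ (norm_nonneg _)
      refine (norm_sum_le _ _).trans ?_
      rw [sum_congr rfl fun i _ => by rw [norm_mul, (phs_isPh _).norm, ph_norm, one_mul], sum_const,
        nsmul_eq_mul, mul_one]
    have h2 : ((Icc M (2 * M)).card : ℝ) ≤ 2 * M := by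
      rw [Nat.card_Icc]
      have : 2 * M + 1 - M = M + 1 := by omega
      rw [this]
      push_cast
      linarith
    rw [sum_const, nsmul_eq_mul] at h1
    refine h1.trans ?_
    have h3 : (W.card : ℝ) ≤ (N : ℝ) ^ (1 / 2 : ℝ) := by
      refine hW.trans (Real.rpow_le_rpow_of_exponent_le hN1 ?_)
      apply one_div_le_one_div_of_le (by norm_num)
      nlinarith
    have h4 : (M : ℝ) ≤ (N : ℝ) ^ (1 / 2 : ℝ) := by
      rw [← Real.sqrt_eq_rpow]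
      exact Real.le_sqrt_of_sq_le h.le
    have h5 : (M : ℝ) * W.card ≤ N := by
      calc (M : ℝ) * W.card ≤ (N : ℝ) ^ (1 / 2 : ℝ) * (N : ℝ) ^ (1 / 2 : ℝ) :=
            mul_le_mul h4 h3 hWc (by positivity)
        _ = N := by rw [← Real.rpow_add hN0]; norm_num
    calc ((Icc M (2 * M)).card : ℝ) * (W.card : ℝ) ^ 2 ≤ 2 * M * (W.card : ℝ) ^ 2 :=
          mul_le_mul_of_nonneg_right h2 (sq_nonneg _)
      _ = W.card * (2 * (M * W.card)) := by ring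
      _ ≤ W.card * (2 * N) := mul_le_mul_of_nonneg_left (by linarith) hWc
      _ ≤ _ := by
          apply mul_le_mul_of_nonneg_left _ hWc
          have : 0 ≤ (N : ℝ) * (C0 + 84 * (1 + Real.log ((N : ℝ) ^ K + 1))) := by positivity
          linarith
  · -- Halasz and Montgomery
    have hT : ((N ^ K : ℕ) : ℝ) ≤ (M : ℝ) ^ (2 * K) := by
      rw [pow_mul]
      push_cast
      exact pow_le_pow_left₀ hN0.le h K
    have hk := hker M hM (N ^ K) hT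
    have hexp : (1 / (4 * ((2 * K : ℕ) : ℝ) * 2 ^ (2 * K)) : ℝ) = 1 / (8 * K * 4 ^ K) := by
      rw [pow_mul]
      push_cast
      norm_num
      ring
    rw [hexp] at hk
    have hη0 : 0 ≤ 1 - (1 / (8 * K * 4 ^ K) : ℝ) := by
      have h5 : (1 / (8 * K * 4 ^ K) : ℝ) ≤ 1 / 1 := by
        apply one_div_le_one_div_of_le (by norm_num)
        nlinarith
      linarith
    have h1 := halasz M (N ^ K) _ (by positivity) hk W b
    refine h1.trans ?_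
    apply mul_le_mul_of_nonneg_left _ hWc
    have h2 : (W.card : ℝ) * (C0 * (M : ℝ) ^ (1 - (1 / (8 * K * 4 ^ K) : ℝ))) ≤ C0 * N := by
      have h3 : (M : ℝ) ^ (1 - (1 / (8 * K * 4 ^ K) : ℝ)) ≤ (N : ℝ) ^ (1 - (1 / (8 * K * 4 ^ K) : ℝ)) :=
        Real.rpow_le_rpow hM0.le hMN' hη0
      calc (W.card : ℝ) * (C0 * (M : ℝ) ^ (1 - (1 / (8 * K * 4 ^ K) : ℝ)))
          ≤ (N : ℝ) ^ (1 / (8 * K * 4 ^ K) : ℝ) * (C0 * (N : ℝ) ^ (1 - (1 / (8 * K * 4 ^ K) : ℝ))) :=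
            mul_le_mul hW (mul_le_mul_of_nonneg_left h3 hC0.le) (by positivity) (by positivity)
        _ = C0 * ((N : ℝ) ^ (1 / (8 * K * 4 ^ K) : ℝ) * (N : ℝ) ^ (1 - (1 / (8 * K * 4 ^ K) : ℝ))) := by ring
        _ = C0 * N := by
            rw [← Real.rpow_add hN0]
            rw [show (1 / (8 * K * 4 ^ K) : ℝ) + (1 - (1 / (8 * K * 4 ^ K) : ℝ)) = 1 by ring, Real.rpow_one]
    have h3 : 84 * (M : ℝ) * (1 + Real.log (((N ^ K : ℕ) : ℝ) + 1)) ≤
        84 * (N : ℝ) * (1 + Real.log ((N : ℝ) ^ K + 1)) := by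
      push_cast
      apply mul_le_mul_of_nonneg_right _ (by linarith)
      linarith
    linarith

/-- the large sieve for few points -/
theorem gamK (K : ℕ) (hK : 1 ≤ K) : ∃ C : ℝ, 2 ≤ C ∧ ∀ (N : ℕ), 1 ≤ N →
    ∀ (W : Finset (Fin (N ^ K + 1))) (b : Fin (N ^ K + 1) → Fin 4),
    (W.card : ℝ) ≤ (N : ℝ) ^ (1 / (8 * K * 4 ^ K) : ℝ) →
    ∑ n ∈ Icc 1 N, ‖∑ i ∈ W, phs (b i) * ph (((i : ℕ) : ℝ)) n‖ ^ 2 ≤
      W.card * (((Nat.log 2 N : ℝ) + 1) * (N * (C + 84 * (1 + Real.log ((N : ℝ) ^ K + 1))))) := by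
  obtain ⟨C, hC, hb⟩ := block K hK
  refine ⟨C, hC, fun N hN W b hW => ?_⟩
  obtain ⟨f, hf⟩ : ∃ f : ℕ → ℝ, f = fun n => ‖∑ i ∈ W, phs (b i) * ph (((i : ℕ) : ℝ)) n‖ ^ 2 := ⟨_, rfl⟩
  have hf0 : ∀ n, 0 ≤ f n := by
    intro n
    rw [hf]
    exact sq_nonneg _
  have hmaps : ∀ n ∈ Icc 1 N, Nat.log 2 n ∈ range (Nat.log 2 N + 1) := by
    intro n hn
    rw [mem_Icc] at hn
    rw [mem_range]
    have := Nat.log_mono_right (b := 2) hn.2
    omega
  have h1 : ∑ n ∈ Icc 1 N, f n ≤ ∑ j ∈ range (Nat.log 2 N + 1), ∑ n ∈ Icc (2 ^ j) (2 * 2 ^ j), f n := by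
    rw [← sum_fiberwise_of_maps_to hmaps]
    apply sum_le_sum
    intro j _
    apply sum_le_sum_of_subset_of_nonneg _ fun n _ _ => hf0 n
    intro n hn
    rw [mem_filter, mem_Icc] at hn
    obtain ⟨⟨hn1, hn2⟩, hn3⟩ := hn
    rw [mem_Icc, ← hn3]
    refine ⟨Nat.pow_log_le_self 2 (by omega), ?_⟩
    have := Nat.lt_pow_succ_log_self (b := 2) (by norm_num) n
    rw [pow_succ] at this
    omega
  have h2 : ∑ n ∈ Icc 1 N, ‖∑ i ∈ W, phs (b i) * ph (((i : ℕ) : ℝ)) n‖ ^ 2 = ∑ n ∈ Icc 1 N, f n := by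
    rw [hf]
  rw [h2]
  refine h1.trans ?_
  have h3 : ∀ j ∈ range (Nat.log 2 N + 1), ∑ n ∈ Icc (2 ^ j) (2 * 2 ^ j), f n ≤
      W.card * (N * (C + 84 * (1 + Real.log ((N : ℝ) ^ K + 1)))) := by
    intro j hj
    rw [mem_range] at hj
    rw [hf]
    apply hb N (2 ^ j) (Nat.one_le_pow _ _ (by norm_num)) _ W b hW
    exact (Nat.pow_le_pow_right (by norm_num) (by omega)).trans (Nat.pow_log_le_self 2 (by omega))
  refine (sum_le_sum h3).trans (le_of_eq ?_)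
  rw [sum_const, card_range, nsmul_eq_mul]
  push_cast
  ring

open Classical in
/-- the union bound for a family of sign patterns -/
theorem union_tail_all {ι : Type*} (s : Finset ℕ) (c : ι → ℕ → ℂ) (G : Finset ι) (R : ℕ)
    (hR : 1 ≤ R) (V Γ : ℝ) (hV : 0 < V) (hΓ : 0 < Γ)
    (h : ∀ W ⊆ G, W.card = R → ∀ b : ι → Fin 4,
      ∑ n ∈ s, ‖∑ i ∈ W, phs (b i) * c i n‖ ^ 2 ≤ Γ * W.card) (B : Finset (Finset ℕ))
    (hB : ∀ P ∈ B, P ⊆ s ∧ ∃ W ⊆ G, W.card = R ∧ ∀ i ∈ W, V ≤ ‖ssum s (c i) P‖) :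
    (B.card : ℝ) ≤ (4 * G.card) ^ R * (2 ^ s.card * Real.exp (-(R * V ^ 2 / (5 * Γ)))) := by
  obtain ⟨Q, hQ⟩ : ∃ Q : Finset ι → Prop, ∀ W, Q W := ⟨fun _ => True, fun _ => trivial⟩
  have h1 := union_tail s c G R hR Q V Γ hV hΓ (fun W hW hWR _ => h W hW hWR)
  refine le_trans (Nat.cast_le.2 (card_le_card ?_)) h1
  intro P hP
  obtain ⟨hPs, W, hW1, hW2, hW3⟩ := hB P hP
  exact mem_filter.2 ⟨mem_powerset.2 hPs, W, hW1, hW2, hQ W, hW3⟩

theorem norm_ssum_SD (N : ℕ) (P : Finset ℕ) (t : ℕ) :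
    ‖ssum (Icc 1 N) (fun n => ph (t : ℝ) n) P‖ = ‖SD N P t‖ := by
  have h1 := norm_ssum_cv N (fun _ => 1) P t
  have h2 : (fun n => ph (t : ℝ) n) = cv (fun _ => 1) t := by
    funext n
    unfold cv
    rw [map_one, one_mul]
  rw [h2, h1]
  unfold SD
  congr 1
  apply sum_congr rfl
  intro n _
  rw [mul_one]

/-- **Few large values are independent.** -/
theorem few_tail (K : ℕ) (hK : 1 ≤ K) (e : ℝ) (he : 0 < e) : ∃ N₀ : ℕ, ∀ N : ℕ, N₀ ≤ N → ∀ R : ℕ, 1 ≤ R →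
    (R : ℝ) ≤ (N : ℝ) ^ (1 / (8 * K * 4 ^ K) : ℝ) →
    (((Icc 1 N).powerset.filter (fun P => R ≤ cnt N K e P)).card : ℝ) ≤
      2 ^ N * Real.exp (-(R * (N : ℝ) ^ e)) := by
  obtain ⟨C, hC, hg⟩ := gamK K hK
  have hK1 : (1 : ℝ) ≤ K := by exact_mod_cast hK
  obtain ⟨A, hA⟩ : ∃ A : ℝ, A = 1 + 4 / e := ⟨_, rfl⟩
  have hA1 : 1 ≤ A := by
    rw [hA]
    have : 0 < 4 / e := by positivity
    linarith
  obtain ⟨B, hB⟩ : ∃ B : ℝ, B = 10 * (C + 84 * (K + 2)) * A ^ 2 := ⟨_, rfl⟩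
  have hB0 : 0 < B := by rw [hB]; positivity
  obtain ⟨N₀, hN₀, hN₀'⟩ := ev_rpow (e / 2) (B * (1 + (K + 3) * A)) (by linarith)
  refine ⟨N₀, fun N hN R hR hRN => ?_⟩
  have hN1 : 1 ≤ N := hN₀.trans hN
  have hN1' : (1 : ℝ) ≤ N := by exact_mod_cast hN1
  have hN0 : (0 : ℝ) < N := by linarith
  have hR1 : (1 : ℝ) ≤ R := by exact_mod_cast hR
  have hlN : 0 ≤ Real.log N := Real.log_nonneg hN1'
  obtain ⟨L, hL⟩ : ∃ L : ℝ, L = 1 + Real.log N := ⟨_, rfl⟩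
  have hL1 : 1 ≤ L := by rw [hL]; linarith
  have hLA : L ≤ A * (N : ℝ) ^ (e / 4) := by
    have h1 := Real.log_le_rpow_div hN0.le (by linarith : 0 < e / 4)
    have h2 : (1 : ℝ) ≤ (N : ℝ) ^ (e / 4) := Real.one_le_rpow hN1' (by linarith)
    rw [hL, hA]
    have h3 : (N : ℝ) ^ (e / 4) / (e / 4) = 4 / e * (N : ℝ) ^ (e / 4) := by
      field_simp
    rw [h3] at h1
    linarith
  have hlogK : Real.log ((N : ℝ) ^ K + 1) ≤ 1 + K * Real.log N := by
    have h1 : (1 : ℝ) ≤ (N : ℝ) ^ K := one_le_pow₀ hN1'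
    have h2 : Real.log ((N : ℝ) ^ K + 1) ≤ Real.log (2 * (N : ℝ) ^ K) :=
      Real.log_le_log (by linarith) (by linarith)
    rw [Real.log_mul (by norm_num) (by positivity), Real.log_pow] at h2
    have h3 := Real.log_two_lt_d9
    linarith
  obtain ⟨Γ, hΓ⟩ : ∃ Γ : ℝ, Γ = ((Nat.log 2 N : ℝ) + 1) *
    (N * (C + 84 * (1 + Real.log ((N : ℝ) ^ K + 1)))) := ⟨_, rfl⟩
  have hlogK0 : 0 ≤ Real.log ((N : ℝ) ^ K + 1) := by
    apply Real.log_nonneg
    have : 0 ≤ (N : ℝ) ^ K := by positivity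
    linarith
  have hΓ0 : 0 < Γ := by rw [hΓ]; positivity
  have hΓB : 5 * Γ ≤ B * (N : ℝ) ^ (1 + e / 2) := by
    have h1 : (Nat.log 2 N : ℝ) + 1 ≤ 2 * L := by
      have h2 : (2 : ℝ) ^ Nat.log 2 N ≤ N := by exact_mod_cast Nat.pow_log_le_self 2 (by omega)
      have h3 := Real.log_le_log (by positivity) h2
      rw [Real.log_pow] at h3
      have h4 := Real.log_two_gt_d9
      have h5 : (0 : ℝ) ≤ Nat.log 2 N := Nat.cast_nonneg _
      rw [hL]
      nlinarith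
    have h2 : C + 84 * (1 + Real.log ((N : ℝ) ^ K + 1)) ≤ (C + 84 * (K + 2)) * L := by
      have h3 : 1 + Real.log ((N : ℝ) ^ K + 1) ≤ (K + 2) * L := by
        rw [hL]
        nlinarith
      have h4 : C ≤ C * L := by nlinarith
      nlinarith
    have h3 : 0 ≤ (N : ℝ) * (C + 84 * (1 + Real.log ((N : ℝ) ^ K + 1))) := by positivity
    have h4 : Γ ≤ 2 * L * (N * ((C + 84 * (K + 2)) * L)) := by
      rw [hΓ]
      exact mul_le_mul h1 (mul_le_mul_of_nonneg_left h2 hN0.le) h3 (by positivity)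
    have h5 : L ^ 2 ≤ A ^ 2 * (N : ℝ) ^ (e / 2) := by
      have h6 := pow_le_pow_left₀ (by linarith) hLA 2
      rw [mul_pow] at h6
      refine h6.trans (le_of_eq ?_)
      congr 1
      rw [← Real.rpow_natCast, ← Real.rpow_mul hN0.le]
      congr 1
      push_cast
      ring
    calc 5 * Γ ≤ 5 * (2 * L * (N * ((C + 84 * (K + 2)) * L))) := by linarith
      _ = 10 * (C + 84 * (K + 2)) * N * L ^ 2 := by ring
      _ ≤ 10 * (C + 84 * (K + 2)) * N * (A ^ 2 * (N : ℝ) ^ (e / 2)) :=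
          mul_le_mul_of_nonneg_left h5 (by positivity)
      _ = B * (N : ℝ) ^ (1 + e / 2) := by
          rw [Real.rpow_add hN0, Real.rpow_one, hB]
          ring
  have hV0 : 0 < (N : ℝ) ^ (1 / 2 + e) := by positivity
  have hut := union_tail_all (Icc 1 N) (fun (i : Fin (N ^ K + 1)) (n : ℕ) => ph (((i : ℕ) : ℝ)) n) univ R hR
    ((N : ℝ) ^ (1 / 2 + e)) Γ hV0 hΓ0 (by
      intro W _ hWR b
      have h1 := hg N hN1 W b (by rw [hWR]; exact hRN)
      rw [← hΓ] at h1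
      rw [mul_comm]
      exact h1) ((Icc 1 N).powerset.filter (fun P => R ≤ cnt N K e P)) ?_
  · rw [Nat.card_Icc, Nat.add_sub_cancel, card_univ, Fintype.card_fin] at hut
    refine hut.trans ?_
    have h1 : (4 * ((N ^ K + 1 : ℕ) : ℝ)) ^ R ≤ Real.exp (R * ((K + 3) * L)) := by
      have h2 : 4 * ((N ^ K + 1 : ℕ) : ℝ) ≤ Real.exp ((K + 3) * L) := by
        have h3 : 4 * ((N ^ K + 1 : ℕ) : ℝ) = Real.exp (Real.log 4 + Real.log ((N : ℝ) ^ K + 1)) := by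
          rw [Real.exp_add, Real.exp_log (by norm_num), Real.exp_log (by positivity)]
          push_cast
          ring
        rw [h3]
        apply Real.exp_le_exp.2
        have h4 : Real.log 4 ≤ 2 := by
          have h5 : Real.log 4 = 2 * Real.log 2 := by
            rw [show (4 : ℝ) = 2 ^ 2 by norm_num, Real.log_pow]
            push_cast
            ring
          rw [h5]
          have := Real.log_two_lt_d9
          linarith
        rw [hL]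
        nlinarith
      calc (4 * ((N ^ K + 1 : ℕ) : ℝ)) ^ R ≤ Real.exp ((K + 3) * L) ^ R :=
            pow_le_pow_left₀ (by positivity) h2 R
        _ = _ := by rw [← Real.exp_nat_mul]
    refine (mul_le_mul_of_nonneg_right h1 (by positivity)).trans ?_
    have h2 : Real.exp (R * ((K + 3) * L)) * (2 ^ N * Real.exp (-(R * ((N : ℝ) ^ (1 / 2 + e)) ^ 2 / (5 * Γ)))) =
        2 ^ N * Real.exp (R * ((K + 3) * L) - R * ((N : ℝ) ^ (1 / 2 + e)) ^ 2 / (5 * Γ)) := by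
      rw [sub_eq_add_neg, Real.exp_add]
      ring
    rw [h2]
    apply mul_le_mul_of_nonneg_left _ (by positivity)
    apply Real.exp_le_exp.2
    have h3 : ((N : ℝ) ^ (1 / 2 + e)) ^ 2 = (N : ℝ) ^ (1 + e / 2) * (N : ℝ) ^ (3 * e / 2) := by
      rw [← Real.rpow_natCast, ← Real.rpow_mul hN0.le, ← Real.rpow_add hN0]
      congr 1
      push_cast
      ring
    have h4 : (N : ℝ) ^ (3 * e / 2) / B ≤ ((N : ℝ) ^ (1 / 2 + e)) ^ 2 / (5 * Γ) := by
      rw [div_le_div_iff₀ hB0 (by positivity), h3]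
      have h5 := mul_le_mul_of_nonneg_left hΓB (by positivity : (0 : ℝ) ≤ (N : ℝ) ^ (3 * e / 2))
      linarith
    have h5 : (N : ℝ) ^ (3 * e / 2) = (N : ℝ) ^ e * (N : ℝ) ^ (e / 2) := by
      rw [← Real.rpow_add hN0]
      congr 1
      ring
    have h6 : (N : ℝ) ^ e * (1 + (K + 3) * A) ≤ (N : ℝ) ^ (3 * e / 2) / B := by
      rw [le_div_iff₀ hB0, h5]
      have h7 := (hN₀' N hN).le
      have h8 := mul_le_mul_of_nonneg_left h7 (by positivity : (0 : ℝ) ≤ (N : ℝ) ^ e)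
      linarith
    have h7 : (K + 3) * L ≤ (K + 3) * A * (N : ℝ) ^ e := by
      have h8 : (N : ℝ) ^ (e / 4) ≤ (N : ℝ) ^ e := Real.rpow_le_rpow_of_exponent_le hN1' (by linarith)
      have h9 : L ≤ A * (N : ℝ) ^ e := hLA.trans (mul_le_mul_of_nonneg_left h8 (by linarith))
      have h10 := mul_le_mul_of_nonneg_left h9 (by positivity : (0 : ℝ) ≤ (K : ℝ) + 3)
      linarith
    have h8 : (K + 3) * L - ((N : ℝ) ^ (1 / 2 + e)) ^ 2 / (5 * Γ) ≤ -(N : ℝ) ^ e := by linarith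
    have h9 := mul_le_mul_of_nonneg_left h8 (by linarith : (0 : ℝ) ≤ R)
    have h10 : R * ((N : ℝ) ^ (1 / 2 + e)) ^ 2 / (5 * Γ) = R * (((N : ℝ) ^ (1 / 2 + e)) ^ 2 / (5 * Γ)) := by
      rw [mul_div_assoc]
    rw [h10]
    linarith
  · intro P hP
    obtain ⟨hP1, hP2⟩ := mem_filter.1 hP
    refine ⟨mem_powerset.1 hP1, ?_⟩
    unfold cnt at hP2
    obtain ⟨S', hS'S, hS'R⟩ := exists_subset_card_eq hP2
    have hS'r : ∀ t ∈ S', t < N ^ K + 1 := by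
      intro t ht
      have := hS'S ht
      rw [mem_filter, mem_range] at this
      exact this.1
    refine ⟨univ.filter (fun i : Fin (N ^ K + 1) => (i : ℕ) ∈ S'), filter_subset _ _, ?_, ?_⟩
    · rw [← hS'R]
      have h1 : (univ.filter (fun i : Fin (N ^ K + 1) => (i : ℕ) ∈ S')).image Fin.val = S' := by
        ext t
        rw [mem_image]
        constructor
        · rintro ⟨i, hi, rfl⟩
          exact (mem_filter.1 hi).2
        · intro ht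
          exact ⟨⟨t, hS'r t ht⟩, mem_filter.2 ⟨mem_univ _, ht⟩, rfl⟩
      rw [← h1, card_image_of_injective _ Fin.val_injective, h1]
    · intro i hi
      have h1 := hS'S (mem_filter.1 hi).2
      rw [mem_filter] at h1
      rw [norm_ssum_SD]
      exact h1.2

end Pool.Agent.V7H56.LD
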