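import Pool.Agent.V7H56.LD.Real

set_option autoImplicit false

/-!
# Families of `e^d` coefficient vectors
-/

namespace Pool.Agent.V7H56.LD

open Finset

open Classical in
/-- **Almost all sign patterns, `e^d` families.** -/
theorem fam_bound (N D : ℕ) (hN : 1 ≤ N) (T V d : ℝ) (hT : 1 ≤ T) (hV : 0 < V) (hd : 1 ≤ d)
    (hD : (D : ℝ) ≤ Real.exp d)
    (a : Fin D → ℕ → ℂ) (ha : ∀ j n, ‖a j n‖ ≤ 1)
    (hc : 108000 * ((N + d * Real.sqrt T) * ell N T ^ 3) ≤ V ^ 2) :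
    (((Icc 1 N).powerset.filter (fun P => ∃ j, ∃ S : Finset ℝ,
      108000 * N * d * ell N T ^ 2 / V ^ 2 < (S.card : ℝ) ∧ (∀ t ∈ S, 0 ≤ t ∧ t ≤ T ∧
      V ≤ ‖∑ n ∈ Icc 1 N, (if n ∈ P then (1 : ℂ) else -1) * a j n * (n : ℂ) ^ (-((t : ℂ) * Complex.I))‖) ∧
      (∀ t ∈ S, ∀ u ∈ S, t ≠ u → 1 ≤ |t - u|))).card : ℝ) ≤ 2 ^ N * Real.exp (-d) := by
  have hN1 : (1 : ℝ) ≤ N := by exact_mod_cast hN
  have hN0 : (0 : ℝ) < N := by linarith
  have hlN : 0 ≤ Real.log N := Real.log_nonneg hN1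
  have hlT : 0 ≤ Real.log T := Real.log_nonneg hT
  obtain ⟨l, hl⟩ : ∃ l : ℝ, l = ell N T := ⟨_, rfl⟩
  have hl1 : 1 ≤ l := by rw [hl]; unfold ell; linarith
  obtain ⟨q, hq⟩ : ∃ q : ℝ, q = Real.sqrt T := ⟨_, rfl⟩
  have hq0 : 0 ≤ q := by rw [hq]; exact Real.sqrt_nonneg T
  rw [← hq, ← hl] at hc
  rw [← hl]
  have hV2 : 0 < V ^ 2 := by positivity
  obtain ⟨x, hx⟩ : ∃ x : ℝ, x = 108000 * N * d * l ^ 2 / V ^ 2 := ⟨_, rfl⟩
  have hx0 : 0 ≤ x := by rw [hx]; positivity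
  have hxV : x * V ^ 2 = 108000 * N * d * l ^ 2 := by rw [hx]; field_simp
  rw [← hx]
  obtain ⟨R, hR⟩ : ∃ R : ℕ, R = ⌊x⌋₊ + 1 := ⟨_, rfl⟩
  have hR1 : 1 ≤ R := by omega
  have hRx : x ≤ R := by
    rw [hR]
    push_cast
    exact (Nat.lt_floor_add_one x).le
  have hRx' : (R : ℝ) ≤ x + 1 := by
    rw [hR]
    push_cast
    have := Nat.floor_le hx0
    linarith
  have hR0 : (0 : ℝ) ≤ R := Nat.cast_nonneg _
  have hl3 : l ^ 2 ≤ l ^ 3 := pow_le_pow_right₀ hl1 (by norm_num)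
  have hl20 : 0 < l ^ 2 := by positivity
  have hl30 : 0 < l ^ 3 := by positivity
  have hdq : 108000 * (d * q * l ^ 3) ≤ V ^ 2 := by
    refine le_trans ?_ hc
    have : 0 ≤ (N : ℝ) * l ^ 3 := by positivity
    nlinarith
  have hdN : 108000 * (N * l ^ 3) ≤ V ^ 2 := by
    refine le_trans ?_ hc
    have : 0 ≤ d * q * l ^ 3 := by positivity
    nlinarith
  have hxq : x * q ≤ N := by
    -- x q V² = 108000 N d l² q ≤ N V²
    have h1 : x * q * V ^ 2 = N * (108000 * (d * q * l ^ 2)) := by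
      calc x * q * V ^ 2 = x * V ^ 2 * q := by ring
        _ = _ := by rw [hxV]; ring
    have h2 : 108000 * (d * q * l ^ 2) ≤ V ^ 2 := by
      refine le_trans ?_ hdq
      have : 0 ≤ d * q := by positivity
      nlinarith
    have h3 : x * q * V ^ 2 ≤ N * V ^ 2 := by
      rw [h1]
      exact mul_le_mul_of_nonneg_left h2 hN0.le
    exact le_of_mul_le_mul_right h3 hV2
  have hX : (N : ℝ) + R * q ≤ 2 * (N + d * q) := by
    have h1 : R * q ≤ (x + 1) * q := mul_le_mul_of_nonneg_right hRx' hq0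
    have h2 : q ≤ d * q := by nlinarith
    linarith
  have hc' : 27000 * ((N + R * Real.sqrt T) * ell N T ^ 3) ≤ V ^ 2 := by
    rw [← hq, ← hl]
    refine le_trans ?_ hc
    have h1 := mul_le_mul_of_nonneg_right hX hl30.le
    have h2 : 0 ≤ (N + d * q) * l ^ 3 := by positivity
    linarith
  have hmain := real_tail N R D hN hR1 T V hT hV a ha hc'
  rw [← hq, ← hl] at hmain
  have hsub : (Icc 1 N).powerset.filter (fun P => ∃ j, ∃ S : Finset ℝ, x < (S.card : ℝ) ∧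
      (∀ t ∈ S, 0 ≤ t ∧ t ≤ T ∧
      V ≤ ‖∑ n ∈ Icc 1 N, (if n ∈ P then (1 : ℂ) else -1) * a j n * (n : ℂ) ^ (-((t : ℂ) * Complex.I))‖) ∧
      (∀ t ∈ S, ∀ u ∈ S, t ≠ u → 1 ≤ |t - u|)) ⊆
      (Icc 1 N).powerset.filter (fun P => ∃ j, ∃ S : Finset ℝ, R ≤ S.card ∧ (∀ t ∈ S, 0 ≤ t ∧ t ≤ T ∧
      V ≤ ‖∑ n ∈ Icc 1 N, (if n ∈ P then (1 : ℂ) else -1) * a j n * (n : ℂ) ^ (-((t : ℂ) * Complex.I))‖) ∧
      (∀ t ∈ S, ∀ u ∈ S, t ≠ u → 1 ≤ |t - u|)) := by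
    intro P hP
    rw [mem_filter] at hP ⊢
    obtain ⟨hP1, j, S, hS1, hS2, hS3⟩ := hP
    refine ⟨hP1, j, S, ?_, hS2, hS3⟩
    rw [hR]
    have := (Nat.floor_lt hx0).2 hS1
    omega
  refine le_trans (Nat.cast_le.2 (card_le_card hsub)) (hmain.trans ?_)
  have hexp : 2 * d ≤ R * V ^ 2 / (27000 * ((N + R * q) * l ^ 2)) := by
    rw [le_div_iff₀ (by positivity)]
    have h1 : 54000 * (d * N * l ^ 2) ≤ R * V ^ 2 / 2 := by
      have h2 : x * V ^ 2 ≤ R * V ^ 2 := mul_le_mul_of_nonneg_right hRx hV2.le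
      rw [hxV] at h2
      linarith
    have h2 : 54000 * (d * (R * q) * l ^ 2) ≤ R * V ^ 2 / 2 := by
      have h3 : R * (108000 * (d * q * l ^ 3)) ≤ R * V ^ 2 := mul_le_mul_of_nonneg_left hdq hR0
      have h4 : d * (R * q) * l ^ 2 ≤ R * (d * q * l ^ 3) := by
        have h5 : 0 ≤ R * (d * q) := by positivity
        nlinarith
      linarith
    linarith
  calc (D : ℝ) * (2 ^ N * Real.exp (-(R * V ^ 2 / (27000 * ((N + R * q) * l ^ 2)))))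
      ≤ Real.exp d * (2 ^ N * Real.exp (-(2 * d))) := by
        apply mul_le_mul hD _ (by positivity) (by positivity)
        apply mul_le_mul_of_nonneg_left _ (by positivity)
        exact Real.exp_le_exp.2 (by linarith)
    _ = 2 ^ N * Real.exp (-d) := by
        rw [show -d = d + -(2 * d) by ring, Real.exp_add]
        ring

open Classical in
/-- **Almost all sign patterns, families of metric entropy `d`.** -/
theorem entropy_bound (N D : ℕ) (hN : 1 ≤ N) (T V d : ℝ) (hT : 1 ≤ T) (hV : 0 < V) (hd : 1 ≤ d)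
    (hD : (D : ℝ) ≤ Real.exp d) (A : Set (ℕ → ℂ)) (b : Fin D → ℕ → ℂ) (hb : ∀ j n, ‖b j n‖ ≤ 1)
    (hA : ∀ a ∈ A, ∃ j, ∑ n ∈ Icc 1 N, ‖a n - b j n‖ ≤ V / 2)
    (hc : 432000 * ((N + d * Real.sqrt T) * ell N T ^ 3) ≤ V ^ 2) :
    (((Icc 1 N).powerset.filter (fun P => ∃ a ∈ A, ∃ S : Finset ℝ,
      432000 * N * d * ell N T ^ 2 / V ^ 2 < (S.card : ℝ) ∧ (∀ t ∈ S, 0 ≤ t ∧ t ≤ T ∧
      V ≤ ‖∑ n ∈ Icc 1 N, (if n ∈ P then (1 : ℂ) else -1) * a n * (n : ℂ) ^ (-((t : ℂ) * Complex.I))‖) ∧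
      (∀ t ∈ S, ∀ u ∈ S, t ≠ u → 1 ≤ |t - u|))).card : ℝ) ≤ 2 ^ N * Real.exp (-d) := by
  have h1 := fam_bound N D hN T (V / 2) d hT (by linarith) hd hD b hb (by
    rw [div_pow]
    linarith)
  refine le_trans (Nat.cast_le.2 (card_le_card ?_)) h1
  intro P hP
  rw [mem_filter] at hP ⊢
  obtain ⟨hP1, a, ha, S, hS1, hS2, hS3⟩ := hP
  obtain ⟨j, hj⟩ := hA a ha
  refine ⟨hP1, j, S, ?_, ?_, hS3⟩
  · have h2 : 108000 * (N : ℝ) * d * ell N T ^ 2 / (V / 2) ^ 2 = 432000 * N * d * ell N T ^ 2 / V ^ 2 := by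
      field_simp
      ring
    rw [h2]
    exact hS1
  · intro t ht
    obtain ⟨h2, h3, h4⟩ := hS2 t ht
    refine ⟨h2, h3, ?_⟩
    have h5 : ∑ n ∈ Icc 1 N, (if n ∈ P then (1 : ℂ) else -1) * a n * (n : ℂ) ^ (-((t : ℂ) * Complex.I)) =
        ∑ n ∈ Icc 1 N, (if n ∈ P then (1 : ℂ) else -1) * b j n * (n : ℂ) ^ (-((t : ℂ) * Complex.I)) +
        ∑ n ∈ Icc 1 N, (if n ∈ P then (1 : ℂ) else -1) * (a n - b j n) *
          (n : ℂ) ^ (-((t : ℂ) * Complex.I)) := by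
      rw [← sum_add_distrib]
      apply sum_congr rfl
      intro n _
      ring
    have h6 : ‖∑ n ∈ Icc 1 N, (if n ∈ P then (1 : ℂ) else -1) * (a n - b j n) *
        (n : ℂ) ^ (-((t : ℂ) * Complex.I))‖ ≤ V / 2 := by
      refine (norm_sum_le _ _).trans (le_trans (sum_le_sum ?_) hj)
      intro n hn
      have hn1 := (mem_Icc.1 hn).1
      rw [norm_mul, norm_mul]
      have h7 : ‖(n : ℂ) ^ (-((t : ℂ) * Complex.I))‖ = 1 := by
        rw [cpow_ph t n hn1, Pool.Agent.TH705.DL.ph_norm]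
      have h8 : ‖(if n ∈ P then (1 : ℂ) else -1)‖ = 1 := by
        split_ifs <;> simp
      rw [h7, h8, one_mul, mul_one]
    rw [h5] at h4
    have h9 := h4.trans (norm_add_le _ _)
    linarith

end Pool.Agent.V7H56.LD
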