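import Pool.Agent.V7H56.LD.Tilt

set_option autoImplicit false

/-!
# From one set of integers to many sign patterns
-/

namespace Pool.Agent.V7H56.LD

open Finset

/-- the signed sum -/
noncomputable def ssum (s : Finset ℕ) (c : ℕ → ℂ) (P : Finset ℕ) : ℂ := ∑ n ∈ s, ((sg P n : ℝ) : ℂ) * c n

theorem cen_eq (s A : Finset ℕ) (hA : A ⊆ s) (δ : ℝ) (c : ℕ → ℂ) (P : Finset ℕ) :
    cen s (fun n => if n ∈ A then δ else 0) c P = ssum s c P - (δ : ℂ) * ∑ n ∈ A, c n := by
  unfold cen ssum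
  have h1 : ∑ n ∈ A, c n = ∑ n ∈ s, if n ∈ A then c n else 0 := by
    rw [← sum_filter]
    congr 1
    ext n
    rw [mem_filter]
    exact ⟨fun h => ⟨hA h, h⟩, fun h => h.2⟩
  rw [h1, mul_sum, ← sum_sub_distrib]
  apply sum_congr rfl
  intro n _
  by_cases h : n ∈ A
  · simp only [h, if_true]
    push_cast
    ring
  · simp only [h, if_false]
    push_cast
    ring

theorem tilt_many {ι : Type*} [DecidableEq ι] (s : Finset ℕ) (W : Finset ι) (c : ι → ℕ → ℂ)
    (hc : ∀ i n, ‖c i n‖ ≤ 1) (A : Finset ℕ) (hA : A ⊆ s) (L δ : ℝ) (hL0 : 0 < L) (hδ0 : 0 < δ)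
    (hδ1 : δ ≤ 1) (hL : ∀ i ∈ W, L ≤ ‖∑ n ∈ A, c i n‖) (hs : 8 * (s.card : ℝ) ≤ (δ * L / 2) ^ 2)
    (hW : W.Nonempty) :
    2 ^ s.card * (1 / 4 * Real.exp (-(δ ^ 2 * s.card))) ≤
      ((s.powerset.filter (fun P => (W.card : ℝ) / 2 ≤
        ((W.filter (fun i => δ * L / 2 ≤ ‖ssum s (c i) P‖)).card : ℝ))).card : ℝ) := by
  obtain ⟨lam, hlam⟩ : ∃ lam : ℝ, lam = δ * L / 2 := ⟨_, rfl⟩
  rw [← hlam] at hs ⊢
  have hlam0 : 0 < lam := by rw [hlam]; positivity
  have hWc : (0 : ℝ) < W.card := by exact_mod_cast hW.card_pos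
  obtain ⟨d, hd⟩ : ∃ d : ℕ → ℝ, d = fun n => if n ∈ A then δ else 0 := ⟨_, rfl⟩
  have hdδ : ∀ n, |d n| ≤ δ := by
    intro n
    rw [hd]
    by_cases h : n ∈ A
    · simp only [h, if_true]
      rw [abs_of_pos hδ0]
    · simp only [h, if_false, abs_zero]
      exact hδ0.le
  have hd1 : ∀ n, |d n| ≤ 1 := fun n => (hdδ n).trans hδ1
  apply many_of_weight s d δ hdδ _ (filter_subset _ _)
  -- the bad points
  have hsm : ∀ i, ∑ P ∈ s.powerset, wt s d P * ‖cen s d (c i) P‖ ^ 2 ≤ s.card := by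
    intro i
    rw [second_moment]
    calc ∑ n ∈ s, (1 - d n ^ 2) * ‖c i n‖ ^ 2 ≤ ∑ _n ∈ s, (1 : ℝ) := by
          apply sum_le_sum
          intro n _
          have h1 : ‖c i n‖ ^ 2 ≤ 1 := pow_le_one₀ (norm_nonneg _) (hc i n)
          have h2 := sq_nonneg (d n)
          have h3 : (1 - d n ^ 2) ≤ 1 := by linarith
          have h4 : 0 ≤ 1 - d n ^ 2 := by
            have := (sq_le_one_iff_abs_le_one (d n)).2 (hd1 n)
            linarith
          nlinarith [sq_nonneg ‖c i n‖]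
      _ = s.card := by rw [sum_const, nsmul_eq_mul, mul_one]
  have hbad : ∀ i, ∑ P ∈ s.powerset, wt s d P * (if lam < ‖cen s d (c i) P‖ then 1 else 0) ≤
      s.card / lam ^ 2 := by
    intro i
    rw [le_div_iff₀ (by positivity), sum_mul]
    refine (sum_le_sum ?_).trans (hsm i)
    intro P _
    have h0 := wt_nonneg (s := s) hd1 P
    rw [mul_assoc]
    apply mul_le_mul_of_nonneg_left _ h0
    split_ifs with h
    · rw [one_mul]
      exact pow_le_pow_left₀ hlam0.le h.le 2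
    · rw [zero_mul]
      exact sq_nonneg _
  have hnot : ∑ P ∈ s.powerset.filter (fun P => ¬ ((W.card : ℝ) / 2 ≤
      ((W.filter (fun i => lam ≤ ‖ssum s (c i) P‖)).card : ℝ))), wt s d P ≤ 1 / 4 := by
    have h1 : ∀ P ∈ s.powerset.filter (fun P => ¬ ((W.card : ℝ) / 2 ≤
        ((W.filter (fun i => lam ≤ ‖ssum s (c i) P‖)).card : ℝ))),
        wt s d P * (W.card / 2) ≤ ∑ i ∈ W, wt s d P * (if lam < ‖cen s d (c i) P‖ then 1 else 0) := by
      intro P hP
      rw [mem_filter, not_le] at hP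
      have h0 := wt_nonneg (s := s) hd1 P
      rw [← mul_sum]
      apply mul_le_mul_of_nonneg_left _ h0
      rw [sum_boole]
      have h2 : W ⊆ (W.filter (fun i => lam ≤ ‖ssum s (c i) P‖)) ∪
          (W.filter (fun i => lam < ‖cen s d (c i) P‖)) := by
        intro i hi
        rw [mem_union, mem_filter, mem_filter]
        by_cases h3 : lam < ‖cen s d (c i) P‖
        · exact Or.inr ⟨hi, h3⟩
        · refine Or.inl ⟨hi, ?_⟩
          rw [not_lt, hd, cen_eq s A hA] at h3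
          have h4 := hL i hi
          have h5 : δ * ‖∑ n ∈ A, c i n‖ ≤ ‖ssum s (c i) P‖ + ‖ssum s (c i) P - (δ : ℂ) * ∑ n ∈ A, c i n‖ := by
            have h6 : ‖(δ : ℂ) * ∑ n ∈ A, c i n‖ = δ * ‖∑ n ∈ A, c i n‖ := by
              rw [norm_mul, Complex.norm_real, Real.norm_of_nonneg hδ0.le]
            rw [← h6]
            have h7 := norm_sub_le (ssum s (c i) P) (ssum s (c i) P - (δ : ℂ) * ∑ n ∈ A, c i n)
            rwa [sub_sub_cancel] at h7
          have h8 := mul_le_mul_of_nonneg_left h4 hδ0.le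
          linarith
      have h3 := (card_le_card h2).trans (card_union_le _ _)
      have h4 : (W.card : ℝ) ≤ ((W.filter (fun i => lam ≤ ‖ssum s (c i) P‖)).card : ℝ) +
          ((W.filter (fun i => lam < ‖cen s d (c i) P‖)).card : ℝ) := by exact_mod_cast h3
      linarith [hP.2]
    have h2 := sum_le_sum h1
    rw [← sum_mul] at h2
    have h3 : ∑ P ∈ s.powerset.filter (fun P => ¬ ((W.card : ℝ) / 2 ≤
        ((W.filter (fun i => lam ≤ ‖ssum s (c i) P‖)).card : ℝ))),
        ∑ i ∈ W, wt s d P * (if lam < ‖cen s d (c i) P‖ then 1 else 0) ≤ W.card * (s.card / lam ^ 2) := by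
      refine (sum_le_sum_of_subset_of_nonneg (filter_subset _ _) ?_).trans ?_
      · intro P _ _
        apply sum_nonneg
        intro i _
        have := wt_nonneg (s := s) hd1 P
        split_ifs
        · linarith
        · linarith
      · rw [sum_comm]
        calc _ ≤ ∑ _i ∈ W, (s.card : ℝ) / lam ^ 2 := sum_le_sum fun i _ => hbad i
          _ = _ := by rw [sum_const, nsmul_eq_mul]
    have h4 : (s.card : ℝ) / lam ^ 2 ≤ 1 / 8 := by
      rw [div_le_iff₀ (by positivity)]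
      linarith
    have h5 := mul_le_mul_of_nonneg_left h4 hWc.le
    have h6 := h2.trans (h3.trans h5)
    by_contra h7
    rw [not_le] at h7
    have h8 := mul_lt_mul_of_pos_right h7 (by positivity : (0 : ℝ) < W.card / 2)
    linarith
  have htot := wt_sum s d
  rw [← sum_filter_add_sum_filter_not s.powerset (fun P => (W.card : ℝ) / 2 ≤
      ((W.filter (fun i => lam ≤ ‖ssum s (c i) P‖)).card : ℝ))] at htot
  linarith

end Pool.Agent.V7H56.LD
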