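import Pool.Agent.V7H56.LD.Core
import Pool.Agent.V7H83.MC.H

set_option autoImplicit false

/-!
# The large value conjecture and large deviations of random Dirichlet polynomials
-/

namespace Pool.Agent.V7H56.LD

open Finset Pool.Agent.V7H83.MC

/-- the Dirichlet polynomial with the signs given by `P` -/
noncomputable def SD (N : ℕ) (P : Finset ℕ) (t : ℝ) : ℂ :=
  ∑ n ∈ Icc 1 N, (if n ∈ P then (1 : ℂ) else -1) * (n : ℂ) ^ (-((t : ℂ) * Complex.I))

/-- the number of the integers `t ≤ N^K` with `|SD N P t| ≥ N^(1/2+e)` -/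
noncomputable def cnt (N K : ℕ) (e : ℝ) (P : Finset ℕ) : ℕ :=
  ((range (N ^ K + 1)).filter (fun t : ℕ => (N : ℝ) ^ (1 / 2 + e) ≤ ‖SD N P t‖)).card

/-- the large deviation bound -/
def Rare (α : ℝ) : Prop := ∀ (K : ℕ) (e : ℝ), 0 < e → ∃ N₀ : ℕ, ∀ N : ℕ, N₀ ≤ N →
  (((Icc 1 N).powerset.filter (fun P => (N : ℝ) ^ (1 + α + e) ≤ (cnt N K e P : ℝ))).card : ℝ) ≤
    2 ^ N * Real.exp (-(N : ℝ) ^ (1 - e))

theorem ev_rpow (e C : ℝ) (he : 0 < e) : ∃ N₀ : ℕ, 1 ≤ N₀ ∧ ∀ N : ℕ, N₀ ≤ N → C < (N : ℝ) ^ e := by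
  have h1 := (tendsto_rpow_atTop he).comp tendsto_natCast_atTop_atTop
  obtain ⟨M, hM⟩ := Filter.eventually_atTop.1 (h1.eventually_gt_atTop C)
  exact ⟨M + 1, by omega, fun N hN => hM N (by omega)⟩

theorem rare_of_lv {α : ℝ} (h : LV α) : Rare α := by
  intro K e he
  obtain ⟨C, hC, H⟩ := h K (e / 2) (by linarith)
  obtain ⟨N₀, hN₀, hN₀'⟩ := ev_rpow e C he
  refine ⟨N₀, fun N hN => ?_⟩
  have hN1 : 1 ≤ N := hN₀.trans hN
  have hN1' : (1 : ℝ) ≤ N := by exact_mod_cast hN1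
  have hN0 : (0 : ℝ) < N := by linarith
  have hempty : (Icc 1 N).powerset.filter (fun P => (N : ℝ) ^ (1 + α + e) ≤ (cnt N K e P : ℝ)) = ∅ := by
    rw [filter_eq_empty_iff]
    intro P _ hP
    have hinj : Function.Injective (fun k : ℕ => (k : ℝ)) := Nat.cast_injective
    have h1 := H N ((N : ℝ) ^ (1 / 2 + e)) (fun n => if n ∈ P then 1 else -1)
      (((range (N ^ K + 1)).filter (fun t : ℕ => (N : ℝ) ^ (1 / 2 + e) ≤ ‖SD N P t‖)).map ⟨_, hinj⟩) hN1
      (fun n => by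
        split_ifs
        · simp
        · simp) (Real.rpow_le_rpow_of_exponent_le hN1' (by linarith)) ?_ ?_
    · rw [card_map] at h1
      have h2 : ((N : ℝ) ^ (1 / 2 + e)) ^ 2 = (N : ℝ) ^ (1 + 2 * e) := by
        rw [← Real.rpow_natCast, ← Real.rpow_mul hN0.le]
        congr 1
        push_cast
        ring
      rw [h2, mul_div_assoc, ← Real.rpow_sub hN0] at h1
      have h3 : (N : ℝ) ^ (1 + α + e) = (N : ℝ) ^ (5 * e / 2) * (N : ℝ) ^ (2 + α + e / 2 - (1 + 2 * e)) := by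
        rw [← Real.rpow_add hN0]
        congr 1
        ring
      have h4 : C < (N : ℝ) ^ (5 * e / 2) := lt_of_lt_of_le (hN₀' N hN)
        (Real.rpow_le_rpow_of_exponent_le hN1' (by linarith))
      have h5 : (N : ℝ) ^ (1 + α + e) ≤ C * (N : ℝ) ^ (2 + α + e / 2 - (1 + 2 * e)) := hP.trans h1
      rw [h3] at h5
      have h6 := mul_lt_mul_of_pos_right h4 (Real.rpow_pos_of_pos hN0 (2 + α + e / 2 - (1 + 2 * e)))
      linarith
    · intro t ht
      obtain ⟨k, hk, rfl⟩ := mem_map.1 ht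
      rw [mem_filter, mem_range] at hk
      refine ⟨Nat.cast_nonneg k, ?_, hk.2⟩
      show (k : ℝ) ≤ (N : ℝ) ^ K
      exact_mod_cast (by omega : k ≤ N ^ K)
    · intro t ht u hu htu
      obtain ⟨k, hk, rfl⟩ := mem_map.1 ht
      obtain ⟨l, hl, rfl⟩ := mem_map.1 hu
      have h2 : (k : ℤ) - l ≠ 0 := by
        intro h3
        apply htu
        have : k = l := by omega
        rw [this]
      have h3 : (1 : ℤ) ≤ |(k : ℤ) - l| := Int.one_le_abs h2
      show (1 : ℝ) ≤ |(k : ℝ) - l|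
      exact_mod_cast h3
  rw [hempty, card_empty, Nat.cast_zero]
  positivity

theorem ssum_eq_SD (N : ℕ) (P : Finset ℕ) (t : ℕ) :
    ssum (Icc 1 N) (fun n => (n : ℂ) ^ (-((t : ℂ) * Complex.I))) P = SD N P t := by
  unfold ssum SD
  apply sum_congr rfl
  intro n _
  unfold sg
  split_ifs <;> simp

theorem norm_cpow_int (t n : ℕ) (hn : 1 ≤ n) : ‖(n : ℂ) ^ (-((t : ℂ) * Complex.I))‖ = 1 := by
  have hn0 : (0 : ℝ) < n := by exact_mod_cast hn
  have h1 : (n : ℂ) = ((n : ℝ) : ℂ) := by push_cast; rfl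
  rw [h1, Complex.norm_cpow_eq_rpow_re_of_pos hn0]
  simp

theorem end_of_rare {α : ℝ} (hα : 0 ≤ α) (h : Rare α) : End α := by
  intro K e he
  obtain ⟨e1, he1⟩ : ∃ e1 : ℝ, e1 = min e 1 := ⟨_, rfl⟩
  have he10 : 0 < e1 := by rw [he1]; exact lt_min he one_pos
  have he1e : e1 ≤ e := by rw [he1]; exact min_le_left _ _
  have he11 : e1 ≤ 1 := by rw [he1]; exact min_le_right _ _
  obtain ⟨N₀, hN₀⟩ := h K (e1 / 4) (by linarith)
  obtain ⟨N₁, hN₁, hN₁'⟩ := ev_rpow (e1 / 4) 32 (by linarith)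
  obtain ⟨M, hM⟩ : ∃ M : ℕ, M = max N₀ N₁ := ⟨_, rfl⟩
  refine ⟨max 2 (2 * (M : ℝ) ^ K), lt_max_of_lt_left two_pos, fun N A S hN hA hS => ?_⟩
  have hN1 : (1 : ℝ) ≤ N := by exact_mod_cast hN
  have hN0 : (0 : ℝ) < N := by linarith
  have hpow1 : (1 : ℝ) ≤ (N : ℝ) ^ (1 + α + e) := Real.one_le_rpow hN1 (by linarith)
  rcases lt_or_ge N M with hlt | hge
  · have h1 : (S.card : ℝ) ≤ 2 * (M : ℝ) ^ K := by
      have h2 : S ⊆ range (N ^ K + 1) := by
        intro t ht
        rw [mem_range]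
        have := (hS t ht).1
        omega
      have h3 := card_le_card h2
      rw [card_range] at h3
      have h4 : N ^ K ≤ M ^ K := Nat.pow_le_pow_left hlt.le K
      have h5 : 1 ≤ M ^ K := Nat.one_le_pow _ _ (by omega)
      have h6 : S.card ≤ 2 * M ^ K := by omega
      exact_mod_cast h6
    calc (S.card : ℝ) ≤ 2 * (M : ℝ) ^ K * 1 := by rw [mul_one]; exact h1
      _ ≤ _ := mul_le_mul (le_max_right _ _) hpow1 zero_le_one (by positivity)
  · have hNN₀ : N₀ ≤ N := le_trans (by rw [hM]; exact le_max_left _ _) hge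
    have hNN₁ : N₁ ≤ N := le_trans (by rw [hM]; exact le_max_right _ _) hge
    have h32 := hN₁' N hNN₁
    by_contra hcon
    rw [not_le] at hcon
    have hcard : 2 * (N : ℝ) ^ (1 + α + e) < S.card :=
      lt_of_le_of_lt (mul_le_mul_of_nonneg_right (le_max_left _ _) (by linarith)) hcon
    have hSne : S.Nonempty := by
      rw [← card_pos]
      have : (0 : ℝ) < S.card := by linarith
      exact_mod_cast this
    -- the tilt
    obtain ⟨δ, hδ⟩ : ∃ δ : ℝ, δ = (N : ℝ) ^ (-(e1 / 2)) := ⟨_, rfl⟩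
    have hδ0 : 0 < δ := by rw [hδ]; positivity
    have hδ1 : δ ≤ 1 := by
      rw [hδ]
      exact Real.rpow_le_one_of_one_le_of_nonpos hN1 (by linarith)
    obtain ⟨L, hL⟩ : ∃ L : ℝ, L = (N : ℝ) ^ (1 / 2 + e1) := ⟨_, rfl⟩
    have hL0 : 0 < L := by rw [hL]; positivity
    have hδL : δ * L = (N : ℝ) ^ (1 / 2 + e1 / 2) := by
      rw [hδ, hL, ← Real.rpow_add hN0]
      congr 1
      ring
    have hδL2 : (δ * L) ^ 2 = N * (N : ℝ) ^ e1 := by
      rw [hδL, ← Real.rpow_natCast, ← Real.rpow_mul hN0.le]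
      rw [show (1 / 2 + e1 / 2) * ((2 : ℕ) : ℝ) = 1 + e1 by push_cast; ring, Real.rpow_add hN0,
        Real.rpow_one]
    have hbig : (32 : ℝ) ≤ (N : ℝ) ^ e1 := h32.le.trans
      (Real.rpow_le_rpow_of_exponent_le hN1 (by linarith))
    have ht := tilt_many (Icc 1 N) S (fun (t : ℕ) (n : ℕ) => if n = 0 then 0 else (n : ℂ) ^ (-((t : ℂ) * Complex.I)))
      (fun t n => by
        by_cases hn : n = 0
        · simp [hn]
        · simp only [hn, if_false]
          exact (norm_cpow_int t n (Nat.one_le_iff_ne_zero.2 hn)).le)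
      A hA L δ hL0 hδ0 hδ1 (by
        intro t ht
        have h1 : ∑ n ∈ A, (if n = 0 then 0 else (n : ℂ) ^ (-((t : ℂ) * Complex.I))) =
            ∑ n ∈ A, (n : ℂ) ^ (-((t : ℂ) * Complex.I)) := by
          apply sum_congr rfl
          intro n hn
          have h2 : n ≠ 0 := by
            have := (mem_Icc.1 (hA hn)).1
            omega
          rw [if_neg h2]
        rw [h1]
        refine le_trans ?_ (hS t ht).2
        rw [hL]
        exact Real.rpow_le_rpow_of_exponent_le hN1 (by linarith)) (by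
        rw [Nat.card_Icc, Nat.add_sub_cancel, div_pow, hδL2]
        have h1 := mul_le_mul_of_nonneg_left hbig hN0.le
        linarith) hSne
    rw [Nat.card_Icc, Nat.add_sub_cancel] at ht
    have hsub : (Icc 1 N).powerset.filter (fun P => (S.card : ℝ) / 2 ≤
        ((S.filter (fun t => δ * L / 2 ≤ ‖ssum (Icc 1 N) ((fun (t : ℕ) (n : ℕ) =>
          if n = 0 then 0 else (n : ℂ) ^ (-((t : ℂ) * Complex.I))) t) P‖)).card : ℝ)) ⊆
        (Icc 1 N).powerset.filter (fun P => (N : ℝ) ^ (1 + α + e1 / 4) ≤ (cnt N K (e1 / 4) P : ℝ)) := by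
      intro P hP
      rw [mem_filter] at hP ⊢
      refine ⟨hP.1, ?_⟩
      have h1 : (N : ℝ) ^ (1 + α + e1 / 4) ≤ (S.card : ℝ) / 2 := by
        have h2 : (N : ℝ) ^ (1 + α + e1 / 4) ≤ (N : ℝ) ^ (1 + α + e) :=
          Real.rpow_le_rpow_of_exponent_le hN1 (by linarith)
        linarith
      refine h1.trans (hP.2.trans ?_)
      unfold cnt
      have h3 : S.filter (fun t => δ * L / 2 ≤ ‖ssum (Icc 1 N) ((fun (t : ℕ) (n : ℕ) =>
          if n = 0 then 0 else (n : ℂ) ^ (-((t : ℂ) * Complex.I))) t) P‖) ⊆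
          (range (N ^ K + 1)).filter (fun t : ℕ => (N : ℝ) ^ (1 / 2 + e1 / 4) ≤ ‖SD N P t‖) := by
        intro t ht
        rw [mem_filter] at ht ⊢
        refine ⟨?_, ?_⟩
        · rw [mem_range]
          have := (hS t ht.1).1
          omega
        · have h4 : ssum (Icc 1 N) ((fun (t : ℕ) (n : ℕ) =>
              if n = 0 then 0 else (n : ℂ) ^ (-((t : ℂ) * Complex.I))) t) P = SD N P t := by
            rw [← ssum_eq_SD]
            unfold ssum
            apply sum_congr rfl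
            intro n hn
            have h2 : n ≠ 0 := by
              have := (mem_Icc.1 hn).1
              omega
            simp only [h2, if_false]
          rw [← h4]
          refine le_trans ?_ ht.2
          rw [hδL]
          have h5 : (N : ℝ) ^ (1 / 2 + e1 / 2) = (N : ℝ) ^ (1 / 2 + e1 / 4) * (N : ℝ) ^ (e1 / 4) := by
            rw [← Real.rpow_add hN0]
            congr 1
            ring
          rw [h5]
          have h6 := Real.rpow_pos_of_pos hN0 (1 / 2 + e1 / 4)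
          nlinarith
      exact_mod_cast card_le_card h3
    have h1 := ht.trans ((Nat.cast_le.2 (card_le_card hsub)).trans (hN₀ N hNN₀))
    have h2 : (0 : ℝ) < 2 ^ N := by positivity
    have h3 : 1 / 4 * Real.exp (-(δ ^ 2 * N)) ≤ Real.exp (-(N : ℝ) ^ (1 - e1 / 4)) :=
      le_of_mul_le_mul_left h1 h2
    have h4 : δ ^ 2 * N = (N : ℝ) ^ (1 - e1) := by
      rw [hδ, ← Real.rpow_natCast, ← Real.rpow_mul hN0.le]
      nth_rewrite 2 [← Real.rpow_one (N : ℝ)]
      rw [← Real.rpow_add hN0]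
      congr 1
      push_cast
      ring
    rw [h4] at h3
    obtain ⟨x, hx⟩ : ∃ x : ℝ, x = (N : ℝ) ^ (1 - e1) := ⟨_, rfl⟩
    have hx1 : 1 ≤ x := by rw [hx]; exact Real.one_le_rpow hN1 (by linarith)
    have h5 : (N : ℝ) ^ (1 - e1 / 4) = x * (N : ℝ) ^ (3 * e1 / 4) := by
      rw [hx, ← Real.rpow_add hN0]
      congr 1
      ring
    have h6 : (32 : ℝ) ≤ (N : ℝ) ^ (3 * e1 / 4) := h32.le.trans
      (Real.rpow_le_rpow_of_exponent_le hN1 (by linarith))
    have h7 : x + 4 ≤ (N : ℝ) ^ (1 - e1 / 4) := by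
      rw [h5]
      nlinarith
    rw [← hx] at h3
    have h8 : Real.exp (-(N : ℝ) ^ (1 - e1 / 4)) ≤ Real.exp (-x) * Real.exp (-4) := by
      rw [← Real.exp_add]
      apply Real.exp_le_exp.2
      linarith
    have h9 : Real.exp (-4) < 1 / 4 := by
      rw [Real.exp_neg, ← one_div]
      apply one_div_lt_one_div_of_lt (by norm_num)
      have := Real.add_one_le_exp (4 : ℝ)
      linarith
    have h10 := Real.exp_pos (-x)
    nlinarith

/-- **The equivalence.** -/
theorem rare_iff {α : ℝ} (hα : 0 ≤ α) : LV α ↔ Rare α :=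
  ⟨rare_of_lv, fun h => (allA hα).1.1 (end_of_rare hα h)⟩

end Pool.Agent.V7H56.LD
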