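import Pool.Agent.V7H56.LD.Core
import Pool.Agent.Y959.Rs.RealK

set_option autoImplicit false

/-!
# The union bound
-/

namespace Pool.Agent.V7H56.LD

open Finset Pool.Agent.TH705.DL Pool.Agent.Y959.Her Pool.Agent.Y959.Rs

/-- one set of points and one choice of phases -/
theorem one_choice {ι : Type*} (s : Finset ℕ) (c : ι → ℕ → ℂ) (W : Finset ι) (b : ι → Fin 4) (V Γ : ℝ)
    (hV : 0 < V) (hΓ : 0 < Γ) (hW : W.Nonempty)
    (h : ∑ n ∈ s, ‖∑ i ∈ W, phs (b i) * c i n‖ ^ 2 ≤ Γ * W.card) :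
    ((s.powerset.filter (fun P => ∀ i ∈ W, 7 / 10 * V ≤ (phs (b i) * ssum s (c i) P).re)).card : ℝ) ≤
      2 ^ s.card * Real.exp (-(W.card * V ^ 2 / (5 * Γ))) := by
  have hWc : (0 : ℝ) < W.card := by exact_mod_cast hW.card_pos
  obtain ⟨x, hx⟩ : ∃ x : ℕ → ℝ, x = fun n => (∑ i ∈ W, phs (b i) * c i n).re := ⟨_, rfl⟩
  have hx2 : ∑ n ∈ s, x n ^ 2 ≤ Γ * W.card := by
    refine le_trans (sum_le_sum fun n _ => ?_) h
    rw [hx]
    have h1 := Complex.abs_re_le_norm (∑ i ∈ W, phs (b i) * c i n)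
    rw [← sq_abs]
    exact pow_le_pow_left₀ (abs_nonneg _) h1 2
  have ht := tail s x (7 / 10 * V * W.card) (Γ * W.card) (by positivity) (by positivity) hx2
  have hsub : s.powerset.filter (fun P => ∀ i ∈ W, 7 / 10 * V ≤ (phs (b i) * ssum s (c i) P).re) ⊆
      s.powerset.filter (fun P => 7 / 10 * V * W.card ≤ ∑ n ∈ s, sg P n * x n) := by
    intro P hP
    rw [mem_filter] at hP ⊢
    refine ⟨hP.1, ?_⟩
    have h1 : ∑ n ∈ s, sg P n * x n = ∑ i ∈ W, (phs (b i) * ssum s (c i) P).re := by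
      rw [← Complex.re_sum]
      have h2 : ∑ i ∈ W, phs (b i) * ssum s (c i) P = ∑ n ∈ s, ((sg P n : ℝ) : ℂ) * ∑ i ∈ W, phs (b i) * c i n := by
        unfold ssum
        rw [sum_congr rfl fun i _ => mul_sum s _ _, sum_comm]
        apply sum_congr rfl
        intro n _
        rw [mul_sum]
        exact sum_congr rfl fun i _ => by ring
      rw [h2, Complex.re_sum]
      apply sum_congr rfl
      intro n _
      rw [hx, Complex.re_ofReal_mul]
    rw [h1]
    calc 7 / 10 * V * W.card = ∑ _i ∈ W, 7 / 10 * V := by rw [sum_const, nsmul_eq_mul]; ring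
      _ ≤ _ := sum_le_sum hP.2
  have h3 : ((s.powerset.filter (fun P => ∀ i ∈ W, 7 / 10 * V ≤ (phs (b i) * ssum s (c i) P).re)).card : ℝ) ≤
      ((s.powerset.filter (fun P => 7 / 10 * V * W.card ≤ ∑ n ∈ s, sg P n * x n)).card : ℝ) := by
    exact_mod_cast card_le_card hsub
  refine h3.trans (ht.trans ?_)
  apply mul_le_mul_of_nonneg_left _ (by positivity)
  apply Real.exp_le_exp.2
  rw [neg_le_neg_iff, div_le_div_iff₀ (by positivity) (by positivity)]
  have h4 : 0 ≤ (W.card : ℝ) ^ 2 * V ^ 2 * Γ := by positivity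
  nlinarith

open Classical in
/-- all sets of `R` points of `G` with the property `Q` -/
theorem union_tail {ι : Type*} (s : Finset ℕ) (c : ι → ℕ → ℂ) (G : Finset ι) (R : ℕ)
    (hR : 1 ≤ R) (Q : Finset ι → Prop) (V Γ : ℝ) (hV : 0 < V) (hΓ : 0 < Γ)
    (h : ∀ W ⊆ G, W.card = R → Q W → ∀ b : ι → Fin 4,
      ∑ n ∈ s, ‖∑ i ∈ W, phs (b i) * c i n‖ ^ 2 ≤ Γ * W.card) :
    ((s.powerset.filter (fun P => ∃ W ⊆ G, W.card = R ∧ Q W ∧ ∀ i ∈ W, V ≤ ‖ssum s (c i) P‖)).card : ℝ) ≤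
      (4 * G.card) ^ R * (2 ^ s.card * Real.exp (-(R * V ^ 2 / (5 * Γ)))) := by
  obtain ⟨E, hE⟩ : ∃ E : ℝ, E = 2 ^ s.card * Real.exp (-(R * V ^ 2 / (5 * Γ))) := ⟨_, rfl⟩
  have hE0 : 0 ≤ E := by rw [hE]; positivity
  rw [← hE]
  -- extension of a choice of phases
  obtain ⟨ex, hex⟩ : ∃ ex : (W : Finset ι) → (W → Fin 4) → ι → Fin 4,
      ex = fun W b i => if h : i ∈ W then b ⟨i, h⟩ else 0 := ⟨_, rfl⟩
  have hsub : s.powerset.filter (fun P => ∃ W ⊆ G, W.card = R ∧ Q W ∧ ∀ i ∈ W, V ≤ ‖ssum s (c i) P‖) ⊆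
      ((powersetCard R G).filter Q).biUnion (fun W => (univ : Finset (W → Fin 4)).biUnion (fun b =>
        s.powerset.filter (fun P => ∀ i ∈ W, 7 / 10 * V ≤ (phs (ex W b i) * ssum s (c i) P).re))) := by
    intro P hP
    rw [mem_filter] at hP
    obtain ⟨hPs, W, hWG, hWR, hWQ, hW⟩ := hP
    rw [mem_biUnion]
    refine ⟨W, mem_filter.2 ⟨mem_powersetCard.2 ⟨hWG, hWR⟩, hWQ⟩, ?_⟩
    choose β hβ1 hβ2 using fun i : ι => exists_phase (ssum s (c i) P)
    choose k hk using fun i : ι => exists_phs (hβ1 i)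
    rw [mem_biUnion]
    refine ⟨fun i => k i, mem_univ _, ?_⟩
    rw [mem_filter]
    refine ⟨hPs, fun i hi => ?_⟩
    have h1 : ex W (fun i => k i) i = k i := by
      rw [hex]
      simp only [hi, dif_pos]
    rw [h1, hk]
    have h2 := hW i hi
    have h3 := hβ2 i
    linarith
  have h1 : ((s.powerset.filter (fun P => ∃ W ⊆ G, W.card = R ∧ Q W ∧
      ∀ i ∈ W, V ≤ ‖ssum s (c i) P‖)).card : ℝ) ≤ ∑ W ∈ (powersetCard R G).filter Q, 4 ^ R * E := by
    have h2 := (card_le_card hsub).trans card_biUnion_le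
    have h3 : ((∑ W ∈ (powersetCard R G).filter Q, ((univ : Finset (W → Fin 4)).biUnion (fun b =>
        s.powerset.filter (fun P => ∀ i ∈ W, 7 / 10 * V ≤ (phs (ex W b i) * ssum s (c i) P).re))).card : ℕ) : ℝ) ≤
        ∑ W ∈ (powersetCard R G).filter Q, 4 ^ R * E := by
      push_cast
      apply sum_le_sum
      intro W hW
      rw [mem_filter, mem_powersetCard] at hW
      obtain ⟨⟨hWG, hWR⟩, hWQ⟩ := hW
      have hWne : W.Nonempty := by
        rw [← card_pos, hWR]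
        omega
      have h4 : (((univ : Finset (W → Fin 4)).biUnion (fun b =>
          s.powerset.filter (fun P => ∀ i ∈ W, 7 / 10 * V ≤ (phs (ex W b i) * ssum s (c i) P).re))).card : ℝ) ≤
          ∑ _b : W → Fin 4, E := by
        have h5 : (((univ : Finset (W → Fin 4)).biUnion (fun b =>
          s.powerset.filter (fun P => ∀ i ∈ W, 7 / 10 * V ≤ (phs (ex W b i) * ssum s (c i) P).re))).card : ℝ) ≤
          ∑ b : W → Fin 4, ((s.powerset.filter (fun P => ∀ i ∈ W,
            7 / 10 * V ≤ (phs (ex W b i) * ssum s (c i) P).re)).card : ℝ) := by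
          exact_mod_cast card_biUnion_le
        refine h5.trans (sum_le_sum fun b _ => ?_)
        have h6 := one_choice s c W (ex W b) V Γ hV hΓ hWne (h W hWG hWR hWQ _)
        rw [hWR] at h6
        rw [hE]
        exact h6
      refine h4.trans (le_of_eq ?_)
      rw [sum_const, card_univ, Fintype.card_fun, Fintype.card_fin, Fintype.card_coe, hWR, nsmul_eq_mul]
      push_cast
      ring
    exact le_trans (by exact_mod_cast h2) h3
  refine h1.trans ?_
  rw [sum_const, nsmul_eq_mul]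
  have h2 : (((powersetCard R G).filter Q).card : ℝ) ≤ (G.card : ℝ) ^ R := by
    have h3 := card_le_card (filter_subset Q (powersetCard R G))
    rw [card_powersetCard] at h3
    have h4 := Nat.choose_le_pow G.card R
    exact_mod_cast h3.trans h4
  calc _ ≤ (G.card : ℝ) ^ R * (4 ^ R * E) := mul_le_mul_of_nonneg_right h2 (by positivity)
    _ = _ := by rw [mul_pow]; ring

end Pool.Agent.V7H56.LD
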