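import Mathlib

set_option autoImplicit false

/-!
# Sign patterns: tilted weights, second moment, exponential moment

A pattern is a subset `P` of a finite set `s` of integers: the sign of `n` is `1` for `n ∈ P` and `-1` otherwise.
-/

namespace Pool.Agent.V7H56.LD

open Finset

/-- the sign of `n` in the pattern `P` -/
noncomputable def sg (P : Finset ℕ) (n : ℕ) : ℝ := if n ∈ P then 1 else -1

/-- the weight of the pattern `P`: independent signs with means `d n` -/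
noncomputable def wt (s : Finset ℕ) (d : ℕ → ℝ) (P : Finset ℕ) : ℝ := ∏ n ∈ s, (1 + d n * sg P n) / 2

theorem sg_abs (P : Finset ℕ) (n : ℕ) : |sg P n| = 1 := by
  unfold sg
  split_ifs <;> simp

theorem sg_not {P : Finset ℕ} {n : ℕ} (h : n ∉ P) : sg P n = -1 := by
  unfold sg
  rw [if_neg h]

theorem sg_ins_self (P : Finset ℕ) (n : ℕ) : sg (insert n P) n = 1 := by
  unfold sg
  rw [if_pos (mem_insert_self _ _)]

theorem sg_ins {P : Finset ℕ} {n a : ℕ} (h : n ≠ a) : sg (insert a P) n = sg P n := by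
  unfold sg
  have : n ∈ insert a P ↔ n ∈ P := by
    rw [mem_insert]
    exact ⟨fun h1 => h1.resolve_left h, Or.inr⟩
  by_cases h1 : n ∈ P
  · rw [if_pos h1, if_pos (this.2 h1)]
  · rw [if_neg h1, if_neg (fun h2 => h1 (this.1 h2))]

theorem wt_nonneg {s : Finset ℕ} {d : ℕ → ℝ} (hd : ∀ n, |d n| ≤ 1) (P : Finset ℕ) : 0 ≤ wt s d P := by
  unfold wt
  apply prod_nonneg
  intro n _
  have h1 := abs_le.1 (hd n)
  have h2 : -1 ≤ d n * sg P n := by
    unfold sg
    split_ifs <;> linarith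
  linarith

theorem wt_ins0 {s : Finset ℕ} {a : ℕ} (ha : a ∉ s) (d : ℕ → ℝ) {P : Finset ℕ} (hP : P ⊆ s) :
    wt (insert a s) d P = (1 - d a) / 2 * wt s d P := by
  unfold wt
  rw [prod_insert ha, sg_not (fun h => ha (hP h))]
  congr 1
  ring

theorem wt_ins1 {s : Finset ℕ} {a : ℕ} (ha : a ∉ s) (d : ℕ → ℝ) (P : Finset ℕ) :
    wt (insert a s) d (insert a P) = (1 + d a) / 2 * wt s d P := by
  unfold wt
  rw [prod_insert ha, sg_ins_self]
  congr 1
  · ring
  · apply prod_congr rfl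
    intro n hn
    rw [sg_ins (ne_of_mem_of_not_mem hn ha)]

theorem wt_sum (s : Finset ℕ) (d : ℕ → ℝ) : ∑ P ∈ s.powerset, wt s d P = 1 := by
  induction s using Finset.induction_on with
  | empty => simp [wt]
  | insert a s ha ih =>
    rw [sum_powerset_insert ha]
    rw [sum_congr rfl fun P hP => wt_ins0 ha d (mem_powerset.1 hP),
      sum_congr rfl fun P _ => wt_ins1 ha d P, ← mul_sum, ← mul_sum, ih]
    ring

theorem wt_sq_sum (s : Finset ℕ) (d : ℕ → ℝ) :
    ∑ P ∈ s.powerset, wt s d P ^ 2 = ∏ n ∈ s, (1 + d n ^ 2) / 2 := by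
  induction s using Finset.induction_on with
  | empty => simp [wt]
  | insert a s ha ih =>
    rw [sum_powerset_insert ha, prod_insert ha]
    have h0 : ∀ P ∈ s.powerset, wt (insert a s) d P ^ 2 = ((1 - d a) / 2) ^ 2 * wt s d P ^ 2 := by
      intro P hP
      rw [wt_ins0 ha d (mem_powerset.1 hP), mul_pow]
    have h1 : ∀ P ∈ s.powerset, wt (insert a s) d (insert a P) ^ 2 = ((1 + d a) / 2) ^ 2 * wt s d P ^ 2 := by
      intro P _
      rw [wt_ins1 ha d P, mul_pow]
    rw [sum_congr rfl h0, sum_congr rfl h1, ← mul_sum, ← mul_sum, ih]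
    ring

/-- the centred sum -/
noncomputable def cen (s : Finset ℕ) (d : ℕ → ℝ) (c : ℕ → ℂ) (P : Finset ℕ) : ℂ :=
  ∑ n ∈ s, ((sg P n - d n : ℝ) : ℂ) * c n

theorem cen_ins0 {s : Finset ℕ} {a : ℕ} (ha : a ∉ s) (d : ℕ → ℝ) (c : ℕ → ℂ) {P : Finset ℕ} (hP : P ⊆ s) :
    cen (insert a s) d c P = ((-1 - d a : ℝ) : ℂ) * c a + cen s d c P := by
  unfold cen
  rw [sum_insert ha, sg_not (fun h => ha (hP h))]

theorem cen_ins1 {s : Finset ℕ} {a : ℕ} (ha : a ∉ s) (d : ℕ → ℝ) (c : ℕ → ℂ) (P : Finset ℕ) :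
    cen (insert a s) d c (insert a P) = ((1 - d a : ℝ) : ℂ) * c a + cen s d c P := by
  unfold cen
  rw [sum_insert ha, sg_ins_self]
  congr 1
  apply sum_congr rfl
  intro n hn
  rw [sg_ins (ne_of_mem_of_not_mem hn ha)]

theorem two_point (δ : ℝ) (c X : ℂ) :
    (1 - δ) / 2 * ‖((-1 - δ : ℝ) : ℂ) * c + X‖ ^ 2 + (1 + δ) / 2 * ‖((1 - δ : ℝ) : ℂ) * c + X‖ ^ 2 =
      ‖X‖ ^ 2 + (1 - δ ^ 2) * ‖c‖ ^ 2 := by
  simp only [Complex.sq_norm, Complex.normSq_apply, Complex.add_re, Complex.add_im, Complex.mul_re,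
    Complex.mul_im, Complex.ofReal_re, Complex.ofReal_im, zero_mul, sub_zero, add_zero]
  ring

theorem second_moment (s : Finset ℕ) (d : ℕ → ℝ) (c : ℕ → ℂ) :
    ∑ P ∈ s.powerset, wt s d P * ‖cen s d c P‖ ^ 2 = ∑ n ∈ s, (1 - d n ^ 2) * ‖c n‖ ^ 2 := by
  induction s using Finset.induction_on with
  | empty => simp [wt, cen]
  | insert a s ha ih =>
    rw [sum_powerset_insert ha, sum_insert ha, ← ih, ← sum_add_distrib]
    have h : ∀ P ∈ s.powerset, wt (insert a s) d P * ‖cen (insert a s) d c P‖ ^ 2 +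
        wt (insert a s) d (insert a P) * ‖cen (insert a s) d c (insert a P)‖ ^ 2 =
        wt s d P * ((1 - d a ^ 2) * ‖c a‖ ^ 2) + wt s d P * ‖cen s d c P‖ ^ 2 := by
      intro P hP
      rw [wt_ins0 ha d (mem_powerset.1 hP), wt_ins1 ha, cen_ins0 ha d c (mem_powerset.1 hP), cen_ins1 ha]
      have := two_point (d a) (c a) (cen s d c P)
      calc _ = wt s d P * ((1 - d a) / 2 * ‖((-1 - d a : ℝ) : ℂ) * c a + cen s d c P‖ ^ 2 +
            (1 + d a) / 2 * ‖((1 - d a : ℝ) : ℂ) * c a + cen s d c P‖ ^ 2) := by ring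
        _ = _ := by rw [this]; ring
    rw [sum_congr rfl h, sum_add_distrib, ← sum_mul, wt_sum, one_mul]

/-- the exponential moment of uniform signs -/
theorem exp_moment (s : Finset ℕ) (x : ℕ → ℝ) :
    ∑ P ∈ s.powerset, Real.exp (∑ n ∈ s, sg P n * x n) ≤
      2 ^ s.card * Real.exp ((∑ n ∈ s, x n ^ 2) / 2) := by
  induction s using Finset.induction_on with
  | empty => simp
  | insert a s ha ih =>
    rw [sum_powerset_insert ha, card_insert_of_notMem ha, sum_insert ha]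
    have h0 : ∀ P ∈ s.powerset, Real.exp (∑ n ∈ insert a s, sg P n * x n) =
        Real.exp (-(x a)) * Real.exp (∑ n ∈ s, sg P n * x n) := by
      intro P hP
      rw [sum_insert ha, sg_not (fun h => ha ((mem_powerset.1 hP) h)), Real.exp_add]
      congr 2
      ring
    have h1 : ∀ P ∈ s.powerset, Real.exp (∑ n ∈ insert a s, sg (insert a P) n * x n) =
        Real.exp (x a) * Real.exp (∑ n ∈ s, sg P n * x n) := by
      intro P _
      rw [sum_insert ha, sg_ins_self, Real.exp_add, one_mul]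
      congr 2
      apply sum_congr rfl
      intro n hn
      rw [sg_ins (ne_of_mem_of_not_mem hn ha)]
    rw [sum_congr rfl h0, sum_congr rfl h1, ← mul_sum, ← mul_sum, ← add_mul]
    have h2 : Real.exp (-(x a)) + Real.exp (x a) ≤ 2 * Real.exp (x a ^ 2 / 2) := by
      have h3 := Real.cosh_le_exp_half_sq (x a)
      rw [Real.cosh_eq] at h3
      linarith
    have h4 : 0 ≤ ∑ P ∈ s.powerset, Real.exp (∑ n ∈ s, sg P n * x n) :=
      sum_nonneg fun _ _ => (Real.exp_pos _).le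
    calc _ ≤ (2 * Real.exp (x a ^ 2 / 2)) * (2 ^ s.card * Real.exp ((∑ n ∈ s, x n ^ 2) / 2)) :=
          mul_le_mul h2 ih h4 (by positivity)
      _ = 2 ^ (s.card + 1) * (Real.exp (x a ^ 2 / 2) * Real.exp ((∑ n ∈ s, x n ^ 2) / 2)) := by
          rw [pow_succ]
          ring
      _ = _ := by
          rw [← Real.exp_add]
          congr 2
          ring

/-- the tail bound for uniform signs -/
theorem tail (s : Finset ℕ) (x : ℕ → ℝ) (y B : ℝ) (hy : 0 ≤ y) (hB : 0 < B) (hxB : ∑ n ∈ s, x n ^ 2 ≤ B) :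
    ((s.powerset.filter (fun P => y ≤ ∑ n ∈ s, sg P n * x n)).card : ℝ) ≤
      2 ^ s.card * Real.exp (-(y ^ 2 / (2 * B))) := by
  obtain ⟨l, hl⟩ : ∃ l : ℝ, l = y / B := ⟨_, rfl⟩
  have hl0 : 0 ≤ l := by rw [hl]; positivity
  have h1 := exp_moment s (fun n => l * x n)
  have h2 : ∀ P : Finset ℕ, ∑ n ∈ s, sg P n * (l * x n) = l * ∑ n ∈ s, sg P n * x n := by
    intro P
    rw [mul_sum]
    exact sum_congr rfl fun n _ => by ring
  simp only [h2] at h1
  have h3 : ∑ n ∈ s, (l * x n) ^ 2 ≤ l ^ 2 * B := by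
    rw [sum_congr rfl fun n _ => mul_pow l (x n) 2, ← mul_sum]
    exact mul_le_mul_of_nonneg_left hxB (sq_nonneg _)
  have h4 : ((s.powerset.filter (fun P => y ≤ ∑ n ∈ s, sg P n * x n)).card : ℝ) * Real.exp (l * y) ≤
      ∑ P ∈ s.powerset, Real.exp (l * ∑ n ∈ s, sg P n * x n) := by
    rw [← nsmul_eq_mul, ← sum_const]
    refine (sum_le_sum ?_).trans (sum_le_sum_of_subset_of_nonneg (filter_subset _ _)
      fun _ _ _ => (Real.exp_pos _).le)
    intro P hP
    exact Real.exp_le_exp.2 (mul_le_mul_of_nonneg_left (mem_filter.1 hP).2 hl0)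
  have h5 : ((s.powerset.filter (fun P => y ≤ ∑ n ∈ s, sg P n * x n)).card : ℝ) * Real.exp (l * y) ≤
      2 ^ s.card * Real.exp (l ^ 2 * B / 2) := by
    refine h4.trans (h1.trans ?_)
    apply mul_le_mul_of_nonneg_left _ (by positivity)
    apply Real.exp_le_exp.2
    linarith
  have h6 : -(y ^ 2 / (2 * B)) = l ^ 2 * B / 2 - l * y := by
    rw [hl]
    field_simp
    ring
  rw [h6, Real.exp_sub, ← mul_div_assoc, le_div_iff₀ (Real.exp_pos _)]
  exact h5

/-- a set of patterns of large tilted weight has many elements -/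
theorem many_of_weight (s : Finset ℕ) (d : ℕ → ℝ) (δ : ℝ) (hd : ∀ n, |d n| ≤ δ)
    (F : Finset (Finset ℕ)) (hF : F ⊆ s.powerset) (hw : 1 / 2 ≤ ∑ P ∈ F, wt s d P) :
    2 ^ s.card * (1 / 4 * Real.exp (-(δ ^ 2 * s.card))) ≤ (F.card : ℝ) := by
  have h1 : (∑ P ∈ F, wt s d P) ^ 2 ≤ F.card * ∑ P ∈ F, wt s d P ^ 2 := by
    have := sq_sum_le_card_mul_sum_sq (s := F) (f := fun P => wt s d P)
    exact this
  have h2 : ∑ P ∈ F, wt s d P ^ 2 ≤ ∏ n ∈ s, (1 + d n ^ 2) / 2 := by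
    rw [← wt_sq_sum]
    exact sum_le_sum_of_subset_of_nonneg hF fun _ _ _ => sq_nonneg _
  have h3 : ∏ n ∈ s, (1 + d n ^ 2) / 2 ≤ Real.exp (δ ^ 2 * s.card) / 2 ^ s.card := by
    rw [prod_div_distrib, prod_const]
    apply div_le_div_of_nonneg_right _ (by positivity)
    calc ∏ n ∈ s, (1 + d n ^ 2) ≤ ∏ n ∈ s, Real.exp (δ ^ 2) := by
          apply prod_le_prod (fun n _ => by positivity)
          intro n _
          have h4 : d n ^ 2 ≤ δ ^ 2 := sq_le_sq' (by have := abs_le.1 (hd n); linarith)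
            (by have := abs_le.1 (hd n); linarith)
          have h5 := Real.add_one_le_exp (δ ^ 2)
          linarith
      _ = Real.exp (δ ^ 2 * s.card) := by
          rw [prod_const, ← Real.exp_nat_mul]
          congr 1
          ring
  have h6 : (1 / 2 : ℝ) ^ 2 ≤ (∑ P ∈ F, wt s d P) ^ 2 := pow_le_pow_left₀ (by norm_num) hw 2
  have h7 : (1 / 2 : ℝ) ^ 2 ≤ F.card * (Real.exp (δ ^ 2 * s.card) / 2 ^ s.card) :=
    h6.trans (h1.trans (mul_le_mul_of_nonneg_left (h2.trans h3) (Nat.cast_nonneg _)))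
  rw [Real.exp_neg]
  have h8 := Real.exp_pos (δ ^ 2 * s.card)
  have h9 : (0 : ℝ) < 2 ^ s.card := by positivity
  rw [← mul_div_assoc, le_div_iff₀ h9] at h7
  rw [← mul_assoc, ← div_eq_mul_inv, div_le_iff₀ h8]
  linarith

end Pool.Agent.V7H56.LD
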